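import Mathlib

set_option autoImplicit false

/-!
# Dickson polynomials: coefficients and values
-/

namespace Pool.Agent.Pyth

open Polynomial

section

variable {A : Type*} [CommRing A]

/-- Dickson polynomials (of the first kind). -/
noncomputable def DD (a : A) : ℕ → A[X]
  | 0 => 2
  | 1 => X
  | n + 2 => X * DD a (n + 1) - C a * DD a n

theorem DD_add_two (a : A) (n : ℕ) : DD a (n + 2) = X * DD a (n + 1) - C a * DD a n := rfl

/-- Coefficients of the Dickson polynomials. -/
def fc (m : ℕ) : ℕ → ℕ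
  | 0 => 1
  | i + 1 => (m + i + 1).choose (i + 1) + (m + i).choose i

theorem fc_succ (m i : ℕ) : fc (m + 1) (i + 1) = fc m (i + 1) + fc (m + 1) i := by
  cases i with
  | zero => simp [fc]
  | succ i =>
    simp only [fc]
    have h1 : (m + 1 + (i + 1) + 1).choose (i + 1 + 1) =
        (m + (i + 1) + 1).choose (i + 1) + (m + (i + 1) + 1).choose (i + 1 + 1) := by
      have : m + 1 + (i + 1) + 1 = (m + (i + 1) + 1) + 1 := by ring
      rw [this, Nat.choose_succ_succ]
    have h2 : (m + 1 + (i + 1)).choose (i + 1) =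
        (m + (i + 1)).choose i + (m + (i + 1)).choose (i + 1) := by
      have : m + 1 + (i + 1) = (m + (i + 1)) + 1 := by ring
      rw [this, Nat.choose_succ_succ]
    have h3 : m + 1 + i + 1 = m + (i + 1) + 1 := by ring
    have h4 : m + 1 + i = m + (i + 1) := by ring
    rw [h1, h2, h3, h4]
    ring

theorem fc_zero (i : ℕ) : fc 0 (i + 1) = 2 := by
  simp [fc]

theorem mul_fc (m i : ℕ) : (i + 1) * fc m (i + 1) = (m + 2 * (i + 1)) * (m + i).choose i := by
  simp only [fc]
  have := Nat.add_one_mul_choose_eq (m + i) i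
  linear_combination -this

theorem DD_coeff_eq_zero (a : A) (n : ℕ) : ∀ m, (n < m ∨ (n + m) % 2 = 1) →
    (DD a n).coeff m = 0 := by
  induction n using Nat.twoStepInduction with
  | zero =>
    intro m hm
    have hm0 : m ≠ 0 := by omega
    rw [DD]
    have : (2 : A[X]) = C 2 := (map_ofNat C 2).symm
    rw [this, coeff_C, if_neg hm0]
  | one =>
    intro m hm
    have hm1 : m ≠ 1 := by omega
    rw [DD, coeff_X, if_neg (Ne.symm hm1)]
  | more n ih1 ih2 =>
    intro m hm
    rw [DD, coeff_sub, coeff_C_mul, ih1 m (by omega)]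
    cases m with
    | zero => simp
    | succ m => rw [coeff_X_mul, ih2 m (by omega)]; simp

theorem DD_coeff (a : A) (n : ℕ) (hn : 1 ≤ n) : ∀ m i, n = m + 2 * i →
    (DD a n).coeff m = (fc m i : A) * (-a) ^ i := by
  induction n using Nat.strongRec with
  | ind n ih =>
    intro m i hmi
    match n, hn, ih, hmi with
    | 1, _, _, hmi =>
      have h1 : m = 1 := by omega
      have h2 : i = 0 := by omega
      subst h1 h2
      simp [DD, fc]
    | 2, _, _, hmi =>
      rw [DD, DD, DD, coeff_sub, coeff_C_mul]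
      have h2 : (2 : A[X]) = C 2 := (map_ofNat C 2).symm
      rw [h2, coeff_C]
      have h3 : (X * X : A[X]) = X ^ 2 := by ring
      rw [h3, coeff_X_pow]
      rcases Nat.lt_or_ge i 1 with hi | hi
      · have h1 : i = 0 := by omega
        have h4 : m = 2 := by omega
        subst h1 h4
        simp [fc]
      · have h1 : i = 1 := by omega
        have h4 : m = 0 := by omega
        subst h1 h4
        simp [fc]
        ring
    | n + 3, _, ih, hmi =>
      rw [DD, coeff_sub, coeff_C_mul]
      cases m with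
      | zero =>
        obtain ⟨i', rfl⟩ : ∃ i', i = i' + 2 := ⟨i - 2, by omega⟩
        rw [ih (n + 1) (by omega) (by omega) 0 (i' + 1) (by omega)]
        simp only [mul_coeff_zero, coeff_X_zero, zero_mul, fc_zero]
        ring
      | succ m =>
        rw [coeff_X_mul, ih (n + 2) (by omega) (by omega) m i (by omega)]
        cases i with
        | zero =>
          rw [DD_coeff_eq_zero a (n + 1) (m + 1) (by omega)]
          simp [fc]
        | succ i =>
          rw [ih (n + 1) (by omega) (by omega) (m + 1) i (by omega), fc_succ]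
          push_cast
          ring

theorem DD_natDegree_le (a : A) (n : ℕ) : (DD a n).natDegree ≤ n := by
  rw [natDegree_le_iff_coeff_eq_zero]
  intro m hm
  exact DD_coeff_eq_zero a n m (Or.inl hm)

theorem DD_coeff_self (a : A) (n : ℕ) (hn : 1 ≤ n) : (DD a n).coeff n = 1 := by
  rw [DD_coeff a n hn n 0 (by omega)]
  simp [fc]

theorem DD_map {B : Type*} [CommRing B] (ψ : A →+* B) (a : A) (n : ℕ) :
    (DD a n).map ψ = DD (ψ a) n := by
  induction n using Nat.twoStepInduction with
  | zero => simp [DD]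
  | one => simp [DD]
  | more n ih1 ih2 => simp [DD, ih1, ih2]

end

theorem DD_eval (r θ : ℝ) (n : ℕ) :
    (DD (r ^ 2) n).eval (2 * r * Real.cos θ) = 2 * r ^ n * Real.cos (n * θ) := by
  induction n using Nat.twoStepInduction with
  | zero => simp [DD]
  | one => simp [DD]
  | more n ih1 ih2 =>
    rw [DD, eval_sub, eval_mul, eval_mul, eval_X, eval_C, ih1, ih2]
    have h1 : Real.cos (((n + 2 : ℕ) : ℝ) * θ) =
        2 * Real.cos θ * Real.cos (((n + 1 : ℕ) : ℝ) * θ) - Real.cos ((n : ℝ) * θ) := by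
      have e1 : ((n + 2 : ℕ) : ℝ) * θ = ((n + 1 : ℕ) : ℝ) * θ + θ := by push_cast; ring
      have e2 : (n : ℝ) * θ = ((n + 1 : ℕ) : ℝ) * θ - θ := by push_cast; ring
      rw [e1, e2, Real.cos_add, Real.cos_sub]
      ring
    rw [h1]
    ring

/-- The divisibility of the top coefficients for `n = 2 ^ j`. -/
theorem four_pow_dvd_fc {j i m : ℕ} (h : 2 ^ j = m + 2 * (i + 1)) (hj : 3 * (i + 1) ≤ j) :
    4 ^ (i + 1) ∣ fc m (i + 1) := by
  have h1 : 2 ^ j ∣ (i + 1) * fc m (i + 1) := by
    rw [mul_fc, ← h]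
    exact dvd_mul_right _ _
  obtain ⟨v, u, hu, hv⟩ := Nat.exists_eq_two_pow_mul_odd (n := i + 1) (by omega)
  have hvi : v < i + 1 := by
    have h2 : 2 ^ v ≤ i + 1 := by
      rw [hv]
      exact Nat.le_mul_of_pos_right _ (hu.pos)
    exact lt_of_lt_of_le Nat.lt_two_pow_self h2
  have h3 : 2 ^ j = 2 ^ v * 2 ^ (j - v) := by
    rw [← pow_add]
    congr 1
    omega
  rw [h3] at h1
  have h4 : 2 ^ v * 2 ^ (j - v) ∣ 2 ^ v * (u * fc m (i + 1)) := by
    have e : 2 ^ v * (u * fc m (i + 1)) = (i + 1) * fc m (i + 1) := by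
      rw [← mul_assoc, ← hv]
    rw [e]
    exact h1
  have h5 : 2 ^ (j - v) ∣ u * fc m (i + 1) := Nat.dvd_of_mul_dvd_mul_left (by positivity) h4
  have h6 : Nat.Coprime (2 ^ (j - v)) u := Nat.Coprime.pow_left _ (Nat.coprime_two_left.mpr hu)
  have h7 : 2 ^ (j - v) ∣ fc m (i + 1) := h6.dvd_of_dvd_mul_left h5
  refine dvd_trans ?_ h7
  have : (4 : ℕ) ^ (i + 1) = 2 ^ (2 * (i + 1)) := by rw [pow_mul]; norm_num
  rw [this]
  exact pow_dvd_pow 2 (by omega)

end Pool.Agent.Pyth
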