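import Mathlib

set_option autoImplicit false

/-!
# Real-rooted polynomials from sign changes
-/

namespace Pool.Agent.Pyth

open Polynomial

theorem real_rooted (P : ℝ[X]) (K : ℕ) (hdeg : P.natDegree ≤ K) (hP : P ≠ 0) (x : ℕ → ℝ)
    (hx : ∀ i < K, x (i + 1) < x i) (hsign : ∀ i ≤ K, 0 < (-1) ^ i * P.eval (x i)) (z : ℂ)
    (hz : (P.map Complex.ofRealHom).eval z = 0) :
    ∃ t : ℝ, z = t ∧ x K < t ∧ t < x 0 := by
  classical
  have hroot : ∀ i : Fin K, ∃ t : ℝ, x (i + 1) < t ∧ t < x i ∧ P.eval t = 0 := by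
    intro i
    have hc : ContinuousOn (fun t => P.eval t) (Set.Icc (x (i + 1)) (x i)) :=
      P.continuous.continuousOn
    have h1 := hsign i i.2.le
    have h2 := hsign (i + 1) i.2
    rcases Nat.even_or_odd (i : ℕ) with he | ho
    · rw [he.neg_one_pow, one_mul] at h1
      rw [(he.add_one).neg_one_pow] at h2
      obtain ⟨t, ht, ht'⟩ := intermediate_value_Ioo (hx i i.2).le hc
        (show (0 : ℝ) ∈ Set.Ioo _ _ from ⟨by linarith, h1⟩)
      exact ⟨t, ht.1, ht.2, ht'⟩
    · rw [ho.neg_one_pow] at h1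
      rw [(ho.add_one).neg_one_pow, one_mul] at h2
      obtain ⟨t, ht, ht'⟩ := intermediate_value_Ioo' (hx i i.2).le hc
        (show (0 : ℝ) ∈ Set.Ioo _ _ from ⟨by linarith, h2⟩)
      exact ⟨t, ht.1, ht.2, ht'⟩
  choose t ht1 ht2 ht3 using hroot
  have hanti : ∀ j, j ≤ K → ∀ i, i ≤ j → x j ≤ x i := by
    intro j
    induction j with
    | zero =>
      intro _ i hi
      rw [Nat.le_zero.mp hi]
    | succ j ih =>
      intro hj i hi
      rcases Nat.lt_or_ge i (j + 1) with h | h
      · exact (hx j hj).le.trans (ih (by omega) i (by omega))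
      · have : i = j + 1 := by omega
        rw [this]
  have hlt : ∀ i j : Fin K, i < j → t j < t i := by
    intro i j hij
    calc t j < x j := ht2 j
      _ ≤ x (i + 1) := hanti j j.2.le (i + 1) hij
      _ < t i := ht1 i
  have hinj : Function.Injective fun i : Fin K => ((t i : ℝ) : ℂ) := by
    intro i j hij
    have hij : t i = t j := Complex.ofReal_injective hij
    rcases lt_trichotomy i j with h | h | h
    · exact absurd hij (hlt i j h).ne'
    · exact h
    · exact absurd hij (hlt j i h).ne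
  have hP' : P.map Complex.ofRealHom ≠ 0 := by
    rwa [Ne, Polynomial.map_eq_zero]
  have hsub : Finset.univ.image (fun i : Fin K => ((t i : ℝ) : ℂ)) ⊆
      (P.map Complex.ofRealHom).roots.toFinset := by
    intro w hw
    obtain ⟨i, -, rfl⟩ := Finset.mem_image.mp hw
    rw [Multiset.mem_toFinset, mem_roots hP', IsRoot.def]
    change (P.map Complex.ofRealHom).eval (Complex.ofRealHom (t i)) = 0
    rw [eval_map_apply, ht3, map_zero]
  have hcard : (P.map Complex.ofRealHom).roots.toFinset.card ≤
      (Finset.univ.image (fun i : Fin K => ((t i : ℝ) : ℂ))).card := by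
    rw [Finset.card_image_of_injective _ hinj, Finset.card_univ, Fintype.card_fin]
    refine (Multiset.toFinset_card_le _).trans ((card_roots' _).trans ?_)
    exact natDegree_map_le.trans hdeg
  have heq := Finset.eq_of_subset_of_card_le hsub hcard
  have hzm : z ∈ (P.map Complex.ofRealHom).roots.toFinset := by
    rw [Multiset.mem_toFinset, mem_roots hP', IsRoot.def]
    exact hz
  rw [← heq] at hzm
  obtain ⟨i, -, rfl⟩ := Finset.mem_image.mp hzm
  exact ⟨t i, rfl, (hanti K le_rfl _ i.2).trans_lt (ht1 i),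
    (ht2 i).trans_le (hanti i i.2.le 0 (Nat.zero_le _))⟩

end Pool.Agent.Pyth
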