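import Pool.Agent.Lib_helper77.Pyth.Defs

set_option autoImplicit false
set_option linter.unusedSectionVars false

/-!
# Small integers and rounding in a totally real field
-/

namespace Pool.Agent.Pyth

open Polynomial NumberField Module

open scoped NNReal ENNReal

variable {L : Type} [Field L] [NumberField L]

theorem embedding_bij (hL : TotReal L) :
    Function.Bijective (fun v : InfinitePlace L => v.embedding) := by
  constructor
  · intro v w h
    have := congrArg InfinitePlace.mk h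
    simpa using this
  · intro φ
    refine ⟨InfinitePlace.mk φ, ?_⟩
    have hr : ComplexEmbedding.IsReal φ := by
      rw [ComplexEmbedding.isReal_iff]
      ext x
      rw [ComplexEmbedding.conjugate_coe_eq]
      exact Complex.conj_eq_iff_im.mpr (hL φ x)
    exact InfinitePlace.embedding_mk_eq_of_isReal hr

theorem mult_eq_one (hL : TotReal L) (v : InfinitePlace L) : v.mult = 1 := by
  have hr : v.IsReal := by
    rw [InfinitePlace.isReal_iff, ComplexEmbedding.isReal_iff]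
    ext x
    rw [ComplexEmbedding.conjugate_coe_eq]
    exact Complex.conj_eq_iff_im.mpr (hL _ x)
  rw [InfinitePlace.mult, if_pos hr]

/-- Small integers. -/
theorem exists_small_int (hL : TotReal L) : ∃ κ : ℝ, 0 < κ ∧
    ∀ w : (L →+* ℂ) → ℝ, (∀ φ, 0 < w φ) → ∏ φ, w φ = 1 →
      ∃ η : L, IsIntegral ℤ η ∧ η ≠ 0 ∧ ∀ φ : L →+* ℂ, ‖φ η‖ ≤ κ * w φ := by
  classical
  have hb := (mixedEmbedding.minkowskiBound_lt_top L (1 : (FractionalIdeal (nonZeroDivisors (𝓞 L)) L)ˣ)).ne
  obtain ⟨B, hB⟩ : ∃ B : ℝ≥0, mixedEmbedding.minkowskiBound L (1 : (FractionalIdeal (nonZeroDivisors (𝓞 L)) L)ˣ) = B :=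
    ⟨_, (ENNReal.coe_toNNReal hb).symm⟩
  have hκ : (0 : ℝ) < ((B + 1 : ℝ≥0) : ℝ) := by
    have := B.2
    push_cast
    positivity
  refine ⟨((B + 1 : ℝ≥0) : ℝ), hκ, ?_⟩
  intro w hw hprod
  let f : InfinitePlace L → ℝ≥0 := fun v => (B + 1) * (w v.embedding).toNNReal
  have hvol : mixedEmbedding.minkowskiBound L (1 : (FractionalIdeal (nonZeroDivisors (𝓞 L)) L)ˣ) <
      MeasureTheory.volume (mixedEmbedding.convexBodyLT L f) := by
    rw [mixedEmbedding.convexBodyLT_volume, hB]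
    have h1 : ∏ v : InfinitePlace L, (f v) ^ v.mult = (B + 1) ^ Fintype.card (InfinitePlace L) := by
      simp only [mult_eq_one hL, pow_one, f]
      rw [Finset.prod_mul_distrib, Finset.prod_const, Finset.card_univ]
      have h2 : ∏ v : InfinitePlace L, (w v.embedding).toNNReal = 1 := by
        apply NNReal.coe_injective
        rw [NNReal.coe_prod, NNReal.coe_one, ← hprod,
          ← (Function.Bijective.prod_comp (embedding_bij hL) w)]
        exact Finset.prod_congr rfl fun v _ => Real.coe_toNNReal _ (hw _).le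
      rw [h2, mul_one]
    have h3 : ((B + 1 : ℝ≥0) : ℝ≥0∞) ≤ ((∏ v : InfinitePlace L, (f v) ^ v.mult : ℝ≥0) : ℝ≥0∞) := by
      rw [h1]
      have h4 : (B + 1 : ℝ≥0) ≤ (B + 1) ^ Fintype.card (InfinitePlace L) :=
        le_self_pow₀ (le_add_of_nonneg_left B.2) Fintype.card_ne_zero
      exact ENNReal.coe_le_coe.mpr h4
    calc (B : ℝ≥0∞) < ((B + 1 : ℝ≥0) : ℝ≥0∞) := by exact_mod_cast lt_add_one B
      _ ≤ ((∏ v : InfinitePlace L, (f v) ^ v.mult : ℝ≥0) : ℝ≥0∞) := h3
      _ = 1 * ((∏ v : InfinitePlace L, (f v) ^ v.mult : ℝ≥0) : ℝ≥0∞) := (one_mul _).symm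
      _ ≤ _ := mul_le_mul_left (ENNReal.one_le_coe_iff.mpr
        (mixedEmbedding.one_le_convexBodyLTFactor L)) _
  obtain ⟨a, ha, h⟩ := mixedEmbedding.exists_ne_zero_mem_ringOfIntegers_lt L hvol
  refine ⟨a, a.2, by exact_mod_cast ha, ?_⟩
  intro φ
  obtain ⟨v, rfl⟩ := (embedding_bij hL).2 φ
  have h4 := h v
  have h5 : v (a : L) = ‖v.embedding (a : L)‖ := (v.norm_embedding_eq _).symm
  rw [h5] at h4
  refine h4.le.trans ?_
  simp only [f]
  rw [NNReal.coe_mul, Real.coe_toNNReal _ (hw _).le]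

/-- Rounding. -/
theorem exists_round (hL : TotReal L) : ∃ κ : ℝ, 0 < κ ∧
    (∀ w : (L →+* ℂ) → ℝ, (∀ φ, 0 < w φ) → ∏ φ, w φ = 1 →
      ∃ η : L, IsIntegral ℤ η ∧ η ≠ 0 ∧ ∀ φ : L →+* ℂ, ‖φ η‖ ≤ κ * w φ) ∧
    (∀ w : (L →+* ℂ) → ℝ, (∀ φ, 0 < w φ) → ∏ φ, w φ = 1 → ∀ x : L,
      ∃ y : L, IsIntegral ℤ y ∧ ∀ φ : L →+* ℂ, ‖φ (x - y)‖ ≤ κ * w φ) := by
  obtain ⟨κ, hκ, h⟩ := exists_small_int hL
  let b := integralBasis L
  let C : ℝ := ∑ φ : L →+* ℂ, ∑ i, ‖φ (b i)‖
  have hC : 0 ≤ C := Finset.sum_nonneg fun φ _ => Finset.sum_nonneg fun i _ => norm_nonneg _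
  have hone : κ ≤ κ * (C + 1) := by nlinarith
  refine ⟨κ * (C + 1), by positivity, ?_, ?_⟩
  · intro w hw hp
    obtain ⟨η, h1, h2, h3⟩ := h w hw hp
    exact ⟨η, h1, h2, fun φ => (h3 φ).trans (mul_le_mul_of_nonneg_right hone (hw φ).le)⟩
  · intro w hw hp x
    obtain ⟨η, h1, h2, h3⟩ := h w hw hp
    let q := b.repr (x / η)
    let y0 : L := ∑ i, ((⌊q i⌋ : ℤ) : ℚ) • b i
    have hy0 : IsIntegral ℤ y0 := by
      refine IsIntegral.sum _ fun i _ => ?_
      have : (((⌊q i⌋ : ℤ) : ℚ) • b i : L) = (⌊q i⌋ : ℤ) • b i := by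
        rw [Int.cast_smul_eq_zsmul]
      rw [this]
      refine IsIntegral.smul _ ?_
      rw [integralBasis_apply]
      exact (RingOfIntegers.basis L i).2
    refine ⟨η * y0, h1.mul hy0, ?_⟩
    intro φ
    have e1 : x - η * y0 = η * ∑ i, (Int.fract (q i)) • b i := by
      have e2 : x / η = ∑ i, q i • b i := (b.sum_repr (x / η)).symm
      have e3 : x = η * ∑ i, q i • b i := by
        rw [← e2]
        field_simp
      conv_lhs => rw [e3]
      rw [← mul_sub, ← Finset.sum_sub_distrib]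
      congr 1
      refine Finset.sum_congr rfl fun i _ => ?_
      rw [← sub_smul]
      rfl
    rw [e1, map_mul, norm_mul]
    have e4 : ‖φ (∑ i, (Int.fract (q i)) • b i)‖ ≤ C := by
      rw [map_sum]
      refine (norm_sum_le _ _).trans ?_
      refine le_trans ?_ (Finset.single_le_sum (f := fun φ : L →+* ℂ => ∑ i, ‖φ (b i)‖)
        (fun φ _ => Finset.sum_nonneg fun i _ => norm_nonneg _) (Finset.mem_univ φ))
      refine Finset.sum_le_sum fun i _ => ?_
      have e5 : φ ((Int.fract (q i)) • b i) = ((Int.fract (q i) : ℚ) : ℂ) * φ (b i) := by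
        rw [Rat.smul_def, map_mul, map_ratCast]
      rw [e5, norm_mul]
      refine mul_le_of_le_one_left (norm_nonneg _) ?_
      rw [← Complex.ofReal_ratCast, Complex.norm_real, Real.norm_eq_abs]
      have h6 := Int.fract_nonneg (q i)
      have h7 := (Int.fract_lt_one (q i)).le
      rw [abs_of_nonneg (by exact_mod_cast h6)]
      exact_mod_cast h7
    calc ‖φ η‖ * ‖φ (∑ i, (Int.fract (q i)) • b i)‖ ≤ (κ * w φ) * (C + 1) := by
          gcongr
          · have := (hw φ).le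
            positivity
          · exact h3 φ
          · linarith
      _ = κ * (C + 1) * w φ := by ring

end Pool.Agent.Pyth
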