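import Pool.Agent.Lib_helper77.Pyth.Lam
import Pool.Agent.Lib_helper93.Pyth.Round
import Pool.Agent.Lib_helper93.Pyth.Dick
import Pool.Agent.Lib_helper93.Pyth.RealRooted

set_option autoImplicit false
set_option linter.unusedSectionVars false

/-!
# Integral near-Chebyshev polynomials over a totally real field
-/

namespace Pool.Agent.Pyth

open Polynomial NumberField Module

variable {L : Type} [Field L] [NumberField L]

/-- The real embedding attached to a complex embedding of a totally real field. -/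
noncomputable def reHom (hL : TotReal L) (φ : L →+* ℂ) : L →+* ℝ where
  toFun x := (φ x).re
  map_one' := by simp
  map_mul' x y := by rw [map_mul, Complex.mul_re, hL φ x]; ring
  map_zero' := by simp
  map_add' x y := by simp

theorem reHom_apply (hL : TotReal L) (φ : L →+* ℂ) (x : L) : reHom hL φ x = (φ x).re := rfl

theorem ofReal_reHom (hL : TotReal L) (φ : L →+* ℂ) (x : L) : ((reHom hL φ x : ℝ) : ℂ) = φ x := by
  apply Complex.ext
  · rfl
  · rw [hL φ x]; rfl

theorem abs_reHom (hL : TotReal L) (φ : L →+* ℂ) (x : L) : |reHom hL φ x| = ‖φ x‖ := by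
  rw [← ofReal_reHom hL, Complex.norm_real, Real.norm_eq_abs]

theorem comp_reHom (hL : TotReal L) (φ : L →+* ℂ) :
    Complex.ofRealHom.comp (reHom hL φ) = φ := by
  ext x
  exact ofReal_reHom hL φ x

/-- One step of the construction. -/
theorem build (hL : TotReal L) {κ R : ℝ} (hκ : 0 < κ) (hR : 0 < R) (a : L)
    (ρ : (L →+* ℂ) → ℝ) (hρ : ∀ φ, 0 < ρ φ) (ha : ∀ φ, reHom hL φ a = ρ φ ^ 2)
    (hround : ∀ (m : ℕ) (x : L), ∃ y : L, IsIntegral ℤ y ∧
      ∀ φ : L →+* ℂ, ‖φ (x - y)‖ ≤ κ * (ρ φ / R) ^ m)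
    (t₀ K : ℕ) (hK : 1 ≤ K)
    (htop : ∀ j, K ≤ j + t₀ → IsIntegral ℤ ((DD a K).coeff j)) (t : ℕ) (ht : t₀ ≤ t)
    (htK : t ≤ K) :
    ∃ G : L[X], G.natDegree ≤ K ∧ G.coeff K = 1 ∧
      (∀ j, K ≤ j + t → IsIntegral ℤ (G.coeff j)) ∧
      ∀ (φ : L →+* ℂ) (θ : ℝ), |(G.map (reHom hL φ)).eval (2 * ρ φ * Real.cos θ) -
        2 * ρ φ ^ K * Real.cos (K * θ)| ≤
          2 * κ * ρ φ ^ K * ∑ m ∈ Finset.Ico (t₀ + 1) (t + 1), (R⁻¹) ^ m := by
  induction t, ht using Nat.le_induction with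
  | base =>
    refine ⟨DD a K, DD_natDegree_le a K, DD_coeff_self a K hK, htop, ?_⟩
    intro φ θ
    rw [DD_map, ha, DD_eval, sub_self, abs_zero, Finset.Ico_self, Finset.sum_empty, mul_zero]
  | succ t ht ih =>
    obtain ⟨G, hG1, hG2, hG3, hG4⟩ := ih (by omega)
    obtain ⟨j₀, hj₀⟩ : ∃ j₀, K = j₀ + (t + 1) := ⟨K - (t + 1), by omega⟩
    obtain ⟨y, hy, hy'⟩ := hround (t + 1) (G.coeff j₀)
    obtain ⟨D', hD1, hD2, hD3⟩ : ∃ D' : L[X], (∀ j, j₀ < j → D'.coeff j = 0) ∧
        D'.coeff j₀ = 1 ∧ ∀ (φ : L →+* ℂ) (θ : ℝ),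
          |(D'.map (reHom hL φ)).eval (2 * ρ φ * Real.cos θ)| ≤ 2 * ρ φ ^ j₀ := by
      rcases Nat.eq_zero_or_pos j₀ with h0 | h0
      · subst h0
        refine ⟨1, ?_, ?_, ?_⟩
        · intro j hj
          rw [coeff_one, if_neg (by omega)]
        · simp
        · intro φ θ
          simp
      · refine ⟨DD a j₀, fun j hj => DD_coeff_eq_zero a j₀ j (Or.inl hj),
          DD_coeff_self a j₀ h0, ?_⟩
        intro φ θ
        rw [DD_map, ha, DD_eval, abs_mul, abs_mul, abs_pow, abs_of_pos (hρ φ),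
          abs_of_pos (by norm_num : (0 : ℝ) < 2)]
        have := Real.abs_cos_le_one ((j₀ : ℝ) * θ)
        have h2 : 0 ≤ 2 * ρ φ ^ j₀ := by have := hρ φ; positivity
        nlinarith
    refine ⟨G - C (G.coeff j₀ - y) * D', ?_, ?_, ?_, ?_⟩
    · rw [natDegree_le_iff_coeff_eq_zero] at hG1 ⊢
      intro j hj
      rw [coeff_sub, coeff_C_mul, hG1 j hj, hD1 j (by omega)]
      simp
    · rw [coeff_sub, coeff_C_mul, hG2, hD1 K (by omega)]
      simp
    · intro j hj
      rw [coeff_sub, coeff_C_mul]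
      rcases Nat.lt_or_ge j₀ j with h | h
      · rw [hD1 j h, mul_zero, sub_zero]
        exact hG3 j (by omega)
      · have : j = j₀ := by omega
        subst this
        rw [hD2, mul_one, sub_sub_cancel]
        exact hy
    · intro φ θ
      have h1 := hG4 φ θ
      have h2 := hD3 φ θ
      have h3 := hy' φ
      rw [← abs_reHom hL] at h3
      rw [Polynomial.map_sub, Polynomial.map_mul, map_C, eval_sub, eval_mul, eval_C]
      set A := (G.map (reHom hL φ)).eval (2 * ρ φ * Real.cos θ)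
      set B := (D'.map (reHom hL φ)).eval (2 * ρ φ * Real.cos θ)
      have hρ' := hρ φ
      have h4 : |reHom hL φ (G.coeff j₀ - y) * B| ≤ κ * (ρ φ / R) ^ (t + 1) * (2 * ρ φ ^ j₀) := by
        rw [abs_mul]
        gcongr
      have h5 : κ * (ρ φ / R) ^ (t + 1) * (2 * ρ φ ^ j₀) = 2 * κ * ρ φ ^ K * (R⁻¹) ^ (t + 1) := by
        rw [hj₀, div_pow, inv_pow, pow_add]
        ring
      rw [h5] at h4
      rw [Finset.sum_Ico_succ_top (by omega), mul_add]
      have h6 : A - reHom hL φ (G.coeff j₀ - y) * B - 2 * ρ φ ^ K * Real.cos (K * θ) =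
          (A - 2 * ρ φ ^ K * Real.cos (K * θ)) - reHom hL φ (G.coeff j₀ - y) * B := by ring
      rw [h6]
      exact (abs_sub _ _).trans (add_le_add h1 h4)

/-- Module C (integral near-Chebyshev polynomials over a totally real field). -/
theorem exists_near_chebyshev (L : Type) [Field L] [NumberField L] (hL : TotReal L) (β : L)
    (hβ : IsIntegral ℤ β) (hpos : ∀ φ : L →+* ℂ, 0 < (φ β).re) (hlam : Real.log 4 < lam L β) :
    ∃ c : ℝ, 0 < c ∧ ∀ K₀ : ℕ, ∃ K : ℕ, K₀ ≤ K ∧ ∃ (G : L[X]) (η : L),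
      G.Monic ∧ G.natDegree = K ∧ (∀ i, IsIntegral ℤ (G.coeff i)) ∧ IsIntegral ℤ η ∧ η ≠ 0 ∧
      ∀ (φ : L →+* ℂ) (X : ℝ), |X| ≤ c * Real.exp (K * (lam L β - Real.log 4) / 2) →
        ∀ x : ℂ, (G.map φ).eval x = φ η * (X : ℂ) → x.im = 0 ∧ x.re ^ 2 < (φ β).re := by
  obtain ⟨κ, hκ, hsmall, hround⟩ := exists_round hL
  set R : ℝ := Real.exp ((lam L β - Real.log 4) / 2) with hRdef
  have hR1 : 1 < R := by
    rw [hRdef, Real.one_lt_exp_iff]
    linarith
  have hR0 : 0 < R := by linarith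
  set ρ : (L →+* ℂ) → ℝ := fun φ => Real.sqrt ((φ β).re) / 2 with hρdef
  have hρ : ∀ φ, 0 < ρ φ := fun φ => by
    have := Real.sqrt_pos.mpr (hpos φ)
    simp only [ρ]
    positivity
  have hρ2 : ∀ φ, (2 * ρ φ) ^ 2 = (φ β).re := fun φ => by
    simp only [ρ]
    rw [mul_div_cancel₀ _ (by norm_num : (2 : ℝ) ≠ 0), Real.sq_sqrt (hpos φ).le]
  obtain ⟨φ₀⟩ : Nonempty (L →+* ℂ) := inferInstance
  have hβ0 : β ≠ 0 := by
    rintro rfl
    have := hpos φ₀
    simp at this
  have hprod : ∏ φ : L →+* ℂ, (ρ φ / R) = 1 := by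
    have h1 : Real.log (∏ φ : L →+* ℂ, (ρ φ / R)) = 0 := by
      rw [Real.log_prod (fun φ _ => (div_pos (hρ φ) hR0).ne')]
      have h2 : ∀ φ : L →+* ℂ, Real.log (ρ φ / R) =
          Real.log ‖φ β‖ / 2 - (lam L β) / 2 := by
        intro φ
        rw [Real.log_div (hρ φ).ne' hR0.ne', hRdef, Real.log_exp]
        simp only [ρ]
        rw [Real.log_div (Real.sqrt_pos.mpr (hpos φ)).ne' (by norm_num),
          Real.log_sqrt (hpos φ).le, norm_eq_re_of_pos hL (hpos φ).le]
        have : Real.log 4 = 2 * Real.log 2 := by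
          rw [show (4 : ℝ) = 2 ^ 2 by norm_num, Real.log_pow]
          norm_num
        rw [this]
        ring
      rw [Finset.sum_congr rfl fun φ _ => h2 φ, Finset.sum_sub_distrib, ← Finset.sum_div,
        ← mul_lam_eq_sum hβ0, Finset.sum_const, Finset.card_univ, nsmul_eq_mul, card_embeddings]
      ring
    have h3 : 0 < ∏ φ : L →+* ℂ, (ρ φ / R) := Finset.prod_pos fun φ _ => div_pos (hρ φ) hR0
    exact Real.eq_one_of_pos_of_log_eq_zero h3 h1
  have hw : ∀ (m : ℕ) (φ : L →+* ℂ), 0 < (ρ φ / R) ^ m := fun m φ =>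
    pow_pos (div_pos (hρ φ) hR0) m
  have hw' : ∀ m : ℕ, ∏ φ : L →+* ℂ, (ρ φ / R) ^ m = 1 := fun m => by
    rw [Finset.prod_pow, hprod, one_pow]
  -- choice of the number of top coefficients
  have hq0 : 0 < R⁻¹ := inv_pos.mpr hR0
  have hq1 : R⁻¹ < 1 := inv_lt_one_of_one_lt₀ hR1
  obtain ⟨I, hI⟩ := exists_pow_lt_of_lt_one (show 0 < (1 - R⁻¹) / (4 * κ) by
    have : 0 < 1 - R⁻¹ := by linarith
    positivity) hq1
  set a : L := β / 4 with hadef
  have ha : ∀ φ, reHom hL φ a = ρ φ ^ 2 := by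
    intro φ
    rw [hadef, map_div₀, reHom_apply, ← hρ2 φ, map_ofNat]
    ring
  refine ⟨κ⁻¹, by positivity, ?_⟩
  intro K₀
  set j := 3 * I + K₀ with hjdef
  set K := 2 ^ j with hKdef
  have hjK : j < K := Nat.lt_two_pow_self
  have hK1 : 1 ≤ K := by omega
  have htop : ∀ m, K ≤ m + 2 * I → IsIntegral ℤ ((DD a K).coeff m) := by
    intro m hm
    rcases Nat.lt_or_ge K m with h | h
    · rw [DD_coeff_eq_zero a K m (Or.inl h)]
      exact isIntegral_zero
    · rcases Nat.mod_two_eq_zero_or_one (K + m) with h2 | h2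
      · obtain ⟨i, hi⟩ : ∃ i, K = m + 2 * i := ⟨(K - m) / 2, by omega⟩
        rw [DD_coeff a K hK1 m i hi]
        cases i with
        | zero => simp [fc, isIntegral_one]
        | succ i =>
          obtain ⟨c', hc'⟩ := four_pow_dvd_fc (j := j) (i := i) (m := m) hi (by omega)
          rw [hc']
          have : (((4 ^ (i + 1) * c' : ℕ)) : L) * (-a) ^ (i + 1) = (c' : L) * (-β) ^ (i + 1) := by
            have h4 : (-β) = 4 * (-a) := by rw [hadef]; ring
            rw [h4, mul_pow]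
            push_cast
            ring
          rw [this]
          exact (isIntegral_natCast c').mul ((hβ.neg).pow _)
      · rw [DD_coeff_eq_zero a K m (Or.inr h2)]
        exact isIntegral_zero
  have h2IK : 2 * I ≤ K := by omega
  obtain ⟨G, hG1, hG2, hG3, hG4⟩ := build hL hκ hR0 a ρ hρ ha
    (fun m x => hround _ (hw m) (hw' m) x) (2 * I) K hK1 htop K h2IK le_rfl
  obtain ⟨η, hη1, hη2, hη3⟩ := hsmall _ (hw K) (hw' K)
  have hdeg : G.natDegree = K :=
    le_antisymm hG1 (le_natDegree_of_ne_zero (by rw [hG2]; exact one_ne_zero))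
  refine ⟨K, by omega, G, η, ?_, hdeg, fun i => hG3 i (by omega), hη1, hη2, ?_⟩
  · rw [Monic, leadingCoeff, hdeg, hG2]
  intro φ X hX x hx
  have hρφ := hρ φ
  have hRK : Real.exp (K * (lam L β - Real.log 4) / 2) = R ^ K := by
    rw [hRdef, ← Real.exp_nat_mul]
    congr 1
    ring
  rw [hRK] at hX
  -- the error term
  have herr : ∀ θ : ℝ, |(G.map (reHom hL φ)).eval (2 * ρ φ * Real.cos θ) -
      2 * ρ φ ^ K * Real.cos (K * θ)| ≤ ρ φ ^ K / 2 := by
    intro θ
    refine (hG4 φ θ).trans ?_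
    have h1 : ∑ m ∈ Finset.Ico (2 * I + 1) (K + 1), (R⁻¹) ^ m ≤ (R⁻¹) ^ (2 * I + 1) / (1 - R⁻¹) :=
      geom_sum_Ico_le_of_lt_one hq0.le hq1
    have h2 : (R⁻¹) ^ (2 * I + 1) ≤ (1 - R⁻¹) / (4 * κ) :=
      (pow_le_pow_of_le_one hq0.le hq1.le (by omega)).trans hI.le
    have h3 : 0 < 1 - R⁻¹ := by linarith
    have h4 : (R⁻¹) ^ (2 * I + 1) / (1 - R⁻¹) ≤ 1 / (4 * κ) := by
      rw [div_le_iff₀ h3]
      calc (R⁻¹) ^ (2 * I + 1) ≤ (1 - R⁻¹) / (4 * κ) := h2
        _ = 1 / (4 * κ) * (1 - R⁻¹) := by ring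
    calc 2 * κ * ρ φ ^ K * ∑ m ∈ Finset.Ico (2 * I + 1) (K + 1), (R⁻¹) ^ m ≤
        2 * κ * ρ φ ^ K * (1 / (4 * κ)) := by
          have := h1.trans h4
          gcongr
      _ = ρ φ ^ K / 2 := by
          field_simp
          ring
  have hηX : |reHom hL φ η * X| ≤ ρ φ ^ K := by
    rw [abs_mul, abs_reHom]
    calc ‖φ η‖ * |X| ≤ (κ * (ρ φ / R) ^ K) * (κ⁻¹ * R ^ K) := by
          gcongr
          exact hη3 φ
      _ = ρ φ ^ K := by
          rw [div_pow]
          field_simp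
  set P : ℝ[X] := G.map (reHom hL φ) - C (reHom hL φ η * X) with hPdef
  have hPdeg : P.natDegree ≤ K := by
    refine (natDegree_sub_le _ _).trans ?_
    rw [natDegree_C]
    exact max_le (natDegree_map_le.trans hG1) (Nat.zero_le _)
  have hP0 : P ≠ 0 := by
    intro h
    have h1 := congrArg (fun Q => coeff Q K) h
    simp only [hPdef, coeff_sub, coeff_map, hG2, map_one, coeff_zero] at h1
    rw [coeff_C, if_neg (by omega)] at h1
    norm_num at h1
  have hKpos : (0 : ℝ) < K := by exact_mod_cast hK1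
  obtain ⟨t, ht, ht1, ht2⟩ := real_rooted P K hPdeg hP0
    (fun i => 2 * ρ φ * Real.cos (i * Real.pi / K)) (by
      intro i hi
      have h1 : Real.cos (((i + 1 : ℕ) : ℝ) * Real.pi / K) < Real.cos ((i : ℝ) * Real.pi / K) := by
        have hi' : ((i + 1 : ℕ) : ℝ) ≤ K := by exact_mod_cast hi
        have hpi := Real.pi_pos
        refine Real.strictAntiOn_cos ⟨by positivity, ?_⟩ ⟨by positivity, ?_⟩ ?_
        · rw [div_le_iff₀ hKpos]
          push_cast at hi'
          nlinarith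
        · rw [div_le_iff₀ hKpos]
          nlinarith
        · gcongr
          norm_num
      have h2 : 0 < 2 * ρ φ := by positivity
      exact mul_lt_mul_of_pos_left h1 h2) (by
      intro i hi
      have h1 := herr (i * Real.pi / K)
      have h2 : Real.cos ((K : ℝ) * ((i : ℝ) * Real.pi / K)) = (-1) ^ i := by
        rw [mul_div_cancel₀ _ hKpos.ne', Real.cos_nat_mul_pi]
      rw [h2] at h1
      simp only [hPdef, eval_sub, eval_C]
      set A := (G.map (reHom hL φ)).eval (2 * ρ φ * Real.cos (i * Real.pi / K))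
      have h3 : 0 < ρ φ ^ K := by positivity
      have h1' := abs_le.mp h1
      have hX' := abs_le.mp hηX
      rcases Nat.even_or_odd i with he | ho
      · rw [he.neg_one_pow] at h1' ⊢
        linarith [h1'.1, hX'.2]
      · rw [ho.neg_one_pow] at h1' ⊢
        linarith [h1'.2, hX'.1]) x (by
      rw [hPdef, Polynomial.map_sub, map_map, comp_reHom, eval_sub, hx, map_C, eval_C]
      rw [Complex.ofRealHom_eq_coe, Complex.ofReal_mul, ofReal_reHom, sub_self])
  subst ht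
  refine ⟨Complex.ofReal_im t, ?_⟩
  rw [Complex.ofReal_re, ← hρ2 φ]
  simp only [Nat.cast_zero, zero_mul, zero_div, Real.cos_zero, mul_one] at ht2
  have h5 : (K : ℝ) * Real.pi / K = Real.pi := by field_simp
  rw [h5, Real.cos_pi] at ht1
  exact sq_lt_sq' (by linarith) ht2

end Pool.Agent.Pyth
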