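import Pool.Agent.Lib_helper77.Pyth.LowerBound

set_option autoImplicit false
set_option linter.unusedSectionVars false

/-!
# Sums of squares and the normalised norm
-/

namespace Pool.Agent.Pyth

open Polynomial NumberField Module

section General

variable {L : Type*} [Field L] {L' : Type*} [Field L']

theorem SumSq.map {m : ℕ} {x : L} (h : SumSq L m x) (f : L →+* L') : SumSq L' m (f x) := by
  obtain ⟨g, hg, rfl⟩ := h
  refine ⟨fun i => f (g i), fun i => map_isIntegral_int f (hg i), ?_⟩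
  rw [map_sum]
  exact Finset.sum_congr rfl fun i _ => map_pow f _ _

theorem SumSq.zero (m : ℕ) : SumSq L m (0 : L) :=
  ⟨fun _ => 0, fun _ => isIntegral_zero, by simp⟩

theorem SumSq.add_sq {m : ℕ} {x c : L} (h : SumSq L m x) (hc : IsIntegral ℤ c) :
    SumSq L (m + 1) (x + c ^ 2) := by
  obtain ⟨g, hg, rfl⟩ := h
  refine ⟨Fin.snoc g c, ?_, ?_⟩
  · intro i
    refine Fin.lastCases ?_ (fun j => ?_) i
    · simpa using hc
    · simpa using hg j
  · rw [Fin.sum_univ_castSucc]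
    simp

theorem SumSq.succ {m : ℕ} {x : L} (h : SumSq L m x) : SumSq L (m + 1) x := by
  have := h.add_sq (c := 0) isIntegral_zero
  simpa using this

theorem SumSq.mono {m n : ℕ} (hmn : m ≤ n) {x : L} (h : SumSq L m x) : SumSq L n x := by
  induction n, hmn using Nat.le_induction with
  | base => exact h
  | succ n _ ih => exact ih.succ

theorem SumSq.isIntegral {m : ℕ} {x : L} (h : SumSq L m x) : IsIntegral ℤ x := by
  obtain ⟨g, hg, rfl⟩ := h
  exact IsIntegral.sum _ fun i _ => (hg i).pow 2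

theorem SumSq.re_nonneg (hL : TotReal L) {m : ℕ} {x : L} (h : SumSq L m x) (φ : L →+* ℂ) :
    0 ≤ (φ x).re := by
  obtain ⟨g, hg, rfl⟩ := h
  rw [map_sum, Complex.re_sum]
  refine Finset.sum_nonneg fun i _ => ?_
  rw [map_pow, sq, Complex.mul_re, hL φ (g i)]
  nlinarith [mul_self_nonneg (φ (g i)).re]

theorem SumSq.re_pos (hL : TotReal L) {m : ℕ} {x : L} (h : SumSq L m x) (hx : x ≠ 0)
    (φ : L →+* ℂ) : 0 < (φ x).re := by
  refine lt_of_le_of_ne (h.re_nonneg hL φ) fun h0 => hx ?_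
  have : φ x = 0 := Complex.ext h0.symm (hL φ x)
  exact (map_eq_zero φ).mp this

end General

variable {L : Type} [Field L] [NumberField L]

theorem lam_le_lam {x y : L} (hx : x ≠ 0) (hy : y ≠ 0)
    (h : ∀ φ : L →+* ℂ, ‖φ x‖ ≤ ‖φ y‖) : lam L x ≤ lam L y := by
  rw [lam_eq_sum hx, lam_eq_sum hy]
  refine div_le_div_of_nonneg_right (Finset.sum_le_sum fun φ _ => ?_) (Nat.cast_nonneg _)
  exact Real.log_le_log (norm_pos_iff.mpr ((map_ne_zero φ).mpr hx)) (h φ)

/-- An element that is a sum of squares but not a sum of `p` squares is not small. -/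
theorem log_le_lam (hL : TotReal L) {p : ℕ} {x : L} (h : ∃ m, SumSq L m x)
    (hp : ¬ SumSq L p x) : Real.log (p + 1) ≤ lam L x := by
  classical
  obtain ⟨m, ⟨f, hf, hx⟩, hmin⟩ : ∃ m, SumSq L m x ∧ ∀ k < m, ¬ SumSq L k x :=
    ⟨Nat.find h, Nat.find_spec h, fun k hk => Nat.find_min h hk⟩
  have hpm : p + 1 ≤ m := by
    by_contra hlt
    exact hp (SumSq.mono (by omega) ⟨f, hf, hx⟩)
  have hne : ∀ i, f i ≠ 0 := by
    intro i hi
    obtain ⟨k, hk⟩ : ∃ k, m = k + 1 := ⟨m - 1, by omega⟩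
    subst hk
    refine hmin k (by omega) ⟨fun j => f (i.succAbove j), fun j => hf _, ?_⟩
    rw [hx, Fin.sum_univ_succAbove _ i, hi]
    simp
  have hpos : ∀ (φ : L →+* ℂ) (i : Fin m), 0 < (φ (f i ^ 2)).re := by
    intro φ i
    have h1 : SumSq L 1 (f i ^ 2) := ⟨fun _ => f i, fun _ => hf i, by simp⟩
    exact h1.re_pos hL (pow_ne_zero 2 (hne i)) φ
  have h2 := lam_amgm L hL m (by omega) (fun i => f i ^ 2) hpos
  rw [← hx] at h2
  have h3 : 0 ≤ (∑ i, lam L (f i ^ 2)) / (m : ℝ) :=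
    div_nonneg (Finset.sum_nonneg fun i _ => lam_nonneg ((hf i).pow 2)) (Nat.cast_nonneg _)
  have h4 : Real.log (p + 1) ≤ Real.log m :=
    Real.log_le_log (by positivity) (by exact_mod_cast hpm)
  linarith

/-- The gap between the lengths `p + 1` and `p + 2`. -/
theorem gap (hL : TotReal L) {p : ℕ} {A : ℝ}
    (hA : ∀ γ : L, (∃ m, SumSq L m γ) → ¬ SumSq L p γ → A ≤ lam L γ) {β : L}
    (hβ : ∃ m, SumSq L m β) (hβp : ¬ SumSq L (p + 1) β) :
    A + (Real.log (p + 2) - Real.log (p + 1)) ≤ lam L β := by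
  classical
  obtain ⟨m, g, hg, hx⟩ := hβ
  let g' : ℕ → L := fun i => if h : i < m then g ⟨i, h⟩ else 0
  have hg' : ∀ i, IsIntegral ℤ (g' i) := by
    intro i
    by_cases h : i < m
    · simp only [g', h, dif_pos]; exact hg _
    · simp only [g', h, dif_neg, not_false_eq_true]; exact isIntegral_zero
  let B : ℕ → L := fun k => ∑ i ∈ Finset.range k, g' i ^ 2
  have hBm : B m = β := by
    rw [hx]
    simp only [B]
    rw [← Fin.sum_univ_eq_sum_range (fun i => g' i ^ 2) m]
    refine Finset.sum_congr rfl fun i _ => ?_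
    simp only [g', i.2, dif_pos]
  have hex : ∃ k, ¬ SumSq L (p + 1) (B k) := ⟨m, by rwa [hBm]⟩
  have hk := Nat.find_spec hex
  have hkm : Nat.find hex ≤ m := Nat.find_min' hex (by rwa [hBm])
  have hmin : ∀ j < Nat.find hex, SumSq L (p + 1) (B j) := fun j hj =>
    not_not.mp (Nat.find_min hex hj)
  set k := Nat.find hex with hkdef
  have hk0 : k ≠ 0 := by
    intro h0
    apply hk
    rw [h0]
    simp only [B, Finset.range_zero, Finset.sum_empty]
    exact SumSq.zero _
  obtain ⟨k', hk'⟩ : ∃ k', k = k' + 1 := ⟨k - 1, by omega⟩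
  obtain ⟨f, hf, hfB⟩ := hmin k' (by omega)
  have hBk : B k = B k' + g' k' ^ 2 := by
    rw [hk']
    simp only [B]
    rw [Finset.sum_range_succ]
  obtain ⟨d, hd, hdB⟩ : SumSq L (p + 2) (B k) := by
    rw [hBk]
    exact SumSq.add_sq ⟨f, hf, hfB⟩ (hg' k')
  let γ : Fin (p + 2) → L := fun i => B k - d i ^ 2
  have hγ : ∀ i, SumSq L (p + 1) (γ i) := by
    intro i
    refine ⟨fun j => d (i.succAbove j), fun j => hd _, ?_⟩
    simp only [γ]
    rw [hdB, Fin.sum_univ_succAbove _ i]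
    ring
  have hγ' : ∀ i, ¬ SumSq L p (γ i) := by
    intro i h
    apply hk
    have := h.add_sq (hd i)
    simpa [γ] using this
  have hγ0 : ∀ i, γ i ≠ 0 := by
    intro i h
    apply hγ' i
    rw [h]
    exact SumSq.zero _
  have hpos : ∀ (φ : L →+* ℂ) (i : Fin (p + 2)), 0 < (φ (γ i)).re := fun φ i =>
    (hγ i).re_pos hL (hγ0 i) φ
  have h1 := lam_amgm L hL (p + 2) (by omega) γ hpos
  have hB0 : B k ≠ 0 := by
    intro h
    apply hk
    rw [h]
    exact SumSq.zero _
  have h2 : ∑ i, γ i = ((p + 1 : ℕ) : L) * B k := by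
    simp only [γ]
    rw [Finset.sum_sub_distrib, ← hdB, Finset.sum_const, Finset.card_univ, Fintype.card_fin,
      nsmul_eq_mul]
    push_cast
    ring
  rw [h2, lam_mul (by exact_mod_cast Nat.succ_ne_zero p) hB0, lam_natCast] at h1
  have h3 : A ≤ (∑ i, lam L (γ i)) / ((p + 2 : ℕ) : ℝ) := by
    rw [le_div_iff₀ (by positivity)]
    have := Finset.sum_le_sum (s := Finset.univ) fun (i : Fin (p + 2)) _ =>
      hA (γ i) ⟨_, hγ i⟩ (hγ' i)
    rw [Finset.sum_const, Finset.card_univ, Fintype.card_fin, nsmul_eq_mul] at this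
    linarith
  have hβ0 : β ≠ 0 := by
    rintro rfl
    exact hβp (SumSq.zero _)
  have h4 : lam L (B k) ≤ lam L β := by
    refine lam_le_lam hB0 hβ0 fun φ => ?_
    have hs : SumSq L (p + 2) (B k) := ⟨d, hd, hdB⟩
    have hs' : SumSq L m β := ⟨g, hg, hx⟩
    rw [norm_eq_re_of_pos hL (hs.re_nonneg hL φ), norm_eq_re_of_pos hL (hs'.re_nonneg hL φ)]
    have h5 : β = B k + ∑ i ∈ Finset.Ico k m, g' i ^ 2 := by
      rw [← hBm]
      simp only [B]
      rw [Finset.range_eq_Ico, Finset.range_eq_Ico, Finset.sum_Ico_consecutive _ (Nat.zero_le _) hkm]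
    have h6 : 0 ≤ (φ (∑ i ∈ Finset.Ico k m, g' i ^ 2)).re := by
      rw [map_sum, Complex.re_sum]
      refine Finset.sum_nonneg fun i _ => ?_
      rw [map_pow, sq, Complex.mul_re, hL φ (g' i)]
      nlinarith [mul_self_nonneg (φ (g' i)).re]
    rw [h5, map_add, Complex.add_re]
    linarith
  push_cast at h1
  push_cast at h3
  linarith

end Pool.Agent.Pyth
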