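import Pool.Agent.Lib_helper93.Pyth.Gap

set_option autoImplicit false
set_option linter.unusedSectionVars false

/-!
# Assembly of the tower (module H), from the tower step and the existence of long elements
-/

namespace Pool.Agent.Pyth

open Polynomial NumberField Module

/-- The statement of the tower step (module G). -/
def TowerStep : Prop := ∀ (L : Subfield ℂ) [NumberField L] (_ : TotReal L) (n : ℕ) (α β : L)
    (_ : ¬ SumSq L n α) (_ : Real.log 4 ≤ lam L α)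
    (_ : IsIntegral ℤ β) (_ : ∀ φ : L →+* ℂ, 0 < (φ β).re) (_ : lam L α < lam L β),
    ∃ (L' : Subfield ℂ) (h : L ≤ L'), NumberField L' ∧ TotReal L' ∧ L ≠ L' ∧
      SumSq L' 2 (Subfield.inclusion h β) ∧ ¬ SumSq L' n (Subfield.inclusion h α)

/-- The statement of module E (long elements exist). -/
def ExistsLong : Prop := ∀ (n : ℕ), ∃ (L : Subfield ℂ) (_ : NumberField L), TotReal L ∧
    ∃ α : L, (∃ m, SumSq L m α) ∧ ¬ SumSq L n α

/-- A stage of the tower. -/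
structure Stage (p : ℕ) (α : ℂ) (ℓ : ℝ) where
  /-- the field -/
  L : Subfield ℂ
  nf : NumberField L
  tr : TotReal L
  mem : α ∈ L
  nsum : ¬ SumSq L p (⟨α, mem⟩ : L)
  hl : lam L ⟨α, mem⟩ = ℓ

theorem exists_step (hT : TowerStep) {p : ℕ} {α : ℂ} {ℓ : ℝ} (hℓ : Real.log 4 ≤ ℓ)
    (s : Stage p α ℓ) (b : ℂ) : ∃ (s' : Stage p α ℓ), ∃ h : s.L ≤ s'.L,
      ∀ hb : b ∈ s.L, IsIntegral ℤ (⟨b, hb⟩ : s.L) →
        (∀ φ : s.L →+* ℂ, 0 < (φ ⟨b, hb⟩).re) →
        (∀ _ : NumberField s.L, ℓ < lam s.L ⟨b, hb⟩) →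
          s.L ≠ s'.L ∧ SumSq s'.L 2 (⟨b, h hb⟩ : s'.L) := by
  classical
  have := s.nf
  by_cases hc : ∃ hb : b ∈ s.L, IsIntegral ℤ (⟨b, hb⟩ : s.L) ∧
        (∀ φ : s.L →+* ℂ, 0 < (φ ⟨b, hb⟩).re) ∧ ℓ < lam s.L ⟨b, hb⟩
  · obtain ⟨hb, h1, h2, h3⟩ := hc
    obtain ⟨L', h, hnf, htr, hne, hs, hn⟩ := hT s.L s.tr p ⟨α, s.mem⟩ ⟨b, hb⟩ s.nsum
      (by rw [s.hl]; exact hℓ) h1 h2 (by rw [s.hl]; exact h3)
    refine ⟨⟨L', hnf, htr, h s.mem, hn, ?_⟩, h, ?_⟩
    · have e := s.hl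
      let _ : Algebra s.L L' := (Subfield.inclusion h).toAlgebra
      have := lam_algebraMap s.L L' (⟨α, s.mem⟩ : s.L)
      rw [e] at this
      exact this
    · intro hb' _ _ _
      exact ⟨hne, hs⟩
  · refine ⟨s, le_rfl, ?_⟩
    intro hb h1 h2 h3
    exact absurd ⟨hb, h1, h2, h3 s.nf⟩ hc

/-- Module H (assembly). -/
theorem main_of (hT : TowerStep) (hE : ExistsLong) : ∀ n : ℕ, 4 ≤ n →
      ∃ (K : Type) (_ : Field K) (_ : CharZero K),
        Algebra.IsAlgebraic ℚ K ∧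
        ¬ FiniteDimensional ℚ K ∧
        (∀ φ : K →+* ℂ, ∀ x : K, (φ x).im = 0) ∧
        (∀ x : K,
          (∃ m : ℕ, ∃ g : Fin m → K, (∀ i, IsIntegral ℤ (g i)) ∧ x = ∑ i, g i ^ 2) →
          ∃ f : Fin n → K, (∀ i, IsIntegral ℤ (f i)) ∧ x = ∑ i, f i ^ 2) ∧
        (∃ x : K,
          (∃ m : ℕ, ∃ g : Fin m → K, (∀ i, IsIntegral ℤ (g i)) ∧ x = ∑ i, g i ^ 2) ∧
          ∀ f : Fin (n - 1) → K, (∀ i, IsIntegral ℤ (f i)) → x ≠ ∑ i, f i ^ 2) := by
  classical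
  intro n hn
  obtain ⟨p, rfl⟩ : ∃ p, n = p + 1 := ⟨n - 1, by omega⟩
  -- the near-minimal element
  let S : Set ℝ := {r | ∃ (L : Subfield ℂ) (_ : NumberField L), TotReal L ∧
    ∃ α : L, (∃ m, SumSq L m α) ∧ ¬ SumSq L p α ∧ lam L α = r}
  have hSne : S.Nonempty := by
    obtain ⟨L, hnf, htr, α, h1, h2⟩ := hE p
    exact ⟨_, L, hnf, htr, α, h1, h2, rfl⟩
  have hSbd : BddBelow S := by
    refine ⟨0, ?_⟩
    rintro r ⟨L, hnf, htr, α, ⟨m, h1⟩, h2, rfl⟩
    exact lam_nonneg h1.isIntegral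
  set A := sInf S with hA
  have hgap : 0 < Real.log (p + 2) - Real.log (p + 1) := by
    have := Real.log_lt_log (show (0 : ℝ) < p + 1 by positivity) (show (p : ℝ) + 1 < p + 2 by linarith)
    linarith
  obtain ⟨ℓ, ⟨L₀, hnf₀, htr₀, α, hα, hαp, hℓ⟩, hℓA⟩ :=
    exists_lt_of_csInf_lt hSne (lt_add_of_pos_right A hgap)
  have hAle : ∀ (L : Subfield ℂ) (_ : NumberField L), TotReal L → ∀ γ : L,
      (∃ m, SumSq L m γ) → ¬ SumSq L p γ → A ≤ lam L γ := fun L hnf htr γ h1 h2 =>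
    csInf_le hSbd ⟨L, hnf, htr, γ, h1, h2, rfl⟩
  have hℓ4 : Real.log 4 ≤ ℓ := by
    have h1 := log_le_lam htr₀ hα hαp
    rw [hℓ] at h1
    refine le_trans (Real.log_le_log (by norm_num) ?_) h1
    have : (4 : ℝ) ≤ ((p + 1 : ℕ) : ℝ) := by exact_mod_cast hn
    push_cast at this
    exact this
  -- enumeration of the algebraic numbers
  obtain ⟨f, hf⟩ : ∃ f : ℕ → ℂ, {x : ℂ | IsAlgebraic ℚ x} = Set.range f :=
    (Algebraic.countable ℚ ℂ).exists_eq_range ⟨0, isAlgebraic_zero⟩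
  have hfx : ∀ x : ℂ, IsAlgebraic ℚ x → ∀ N : ℕ, ∃ k, N ≤ k ∧ f (Nat.unpair k).1 = x := by
    intro x hx N
    have : x ∈ Set.range f := by rw [← hf]; exact hx
    obtain ⟨i, rfl⟩ := this
    exact ⟨Nat.pair i N, Nat.right_le_pair i N, by rw [Nat.unpair_pair]⟩
  -- the tower
  let s₀ : Stage p (α : ℂ) ℓ := ⟨L₀, hnf₀, htr₀, α.2, hαp, hℓ⟩
  choose nxt hle hnxt using exists_step hT hℓ4 (p := p) (α := (α : ℂ))
  let seq : ℕ → Stage p (α : ℂ) ℓ := fun k =>
    Nat.rec s₀ (fun k s => nxt s (f (Nat.unpair k).1)) k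
  have hseq : ∀ k, seq (k + 1) = nxt (seq k) (f (Nat.unpair k).1) := fun k => rfl
  have hmono : Monotone fun k => (seq k).L := monotone_nat_of_le_succ fun k => by
    rw [hseq]; exact hle _ _
  let K : Subfield ℂ := ⨆ k, (seq k).L
  have hmem : ∀ x : ℂ, x ∈ K ↔ ∃ k, x ∈ (seq k).L := fun x =>
    Subfield.mem_iSup_of_directed hmono.directed_le
  have hleK : ∀ k, (seq k).L ≤ K := fun k x hx => (hmem x).mpr ⟨k, hx⟩
  have halg : ∀ x : ℂ, x ∈ K → IsAlgebraic ℚ x := by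
    intro x hx
    obtain ⟨k, hk⟩ := (hmem x).mp hx
    have := (seq k).nf
    have h1 : IsAlgebraic ℚ (⟨x, hk⟩ : (seq k).L) := Algebra.IsAlgebraic.isAlgebraic _
    exact (isAlgebraic_algebraMap_iff (A := ℂ) (algebraMap (seq k).L ℂ).injective).mpr h1
  have hint : ∀ (F : Subfield ℂ) (x : ℂ) (hx : x ∈ F),
      IsIntegral ℤ (⟨x, hx⟩ : F) ↔ IsIntegral ℤ x := fun F x hx =>
    (isIntegral_algebraMap_iff (A := F) (B := ℂ) (algebraMap F ℂ).injective
      (x := (⟨x, hx⟩ : F))).symm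
  -- representations in K come from a stage
  have hfin : ∀ (m : ℕ) (g : Fin m → K), ∃ k₀, ∀ k, k₀ ≤ k → ∀ i, (g i : ℂ) ∈ (seq k).L := by
    intro m g
    have h1 : ∀ i, ∃ k, (g i : ℂ) ∈ (seq k).L := fun i => (hmem _).mp (g i).2
    choose k hk using h1
    refine ⟨Finset.univ.sup k, fun k' hk' i => ?_⟩
    exact hmono ((Finset.le_sup (Finset.mem_univ i)).trans hk') (hk i)
  have hdown : ∀ (m : ℕ) (x : K), SumSq K m x → ∃ k₀, ∀ k, k₀ ≤ k →
      ∃ hx : (x : ℂ) ∈ (seq k).L, SumSq (seq k).L m (⟨x, hx⟩ : (seq k).L) := by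
    rintro m x ⟨g, hg, hx⟩
    obtain ⟨k₀, hk₀⟩ := hfin m g
    refine ⟨k₀, fun k hk => ?_⟩
    have hx' : (x : ℂ) = ∑ i, (g i : ℂ) ^ 2 := by
      rw [hx]
      push_cast
      rfl
    have hxm : (x : ℂ) ∈ (seq k).L := by
      rw [hx']
      exact sum_mem fun i _ => pow_mem (hk₀ k hk i) 2
    refine ⟨hxm, fun i => ⟨g i, hk₀ k hk i⟩, fun i => ?_, ?_⟩
    · rw [hint]
      exact (hint K _ (g i).2).mp (hg i)
    · apply Subtype.ext
      push_cast
      exact hx'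
  have hup : ∀ (m k : ℕ) (x : ℂ) (hx : x ∈ (seq k).L), SumSq (seq k).L m (⟨x, hx⟩ : (seq k).L) →
      SumSq K m (⟨x, hleK k hx⟩ : K) := fun m k x hx h => h.map (Subfield.inclusion (hleK k))
  refine ⟨K, inferInstance, inferInstance, ?_, ?_, ?_, ?_, ?_⟩
  · -- algebraic
    refine ⟨fun x => ?_⟩
    exact (isAlgebraic_algebraMap_iff (A := ℂ) (algebraMap K ℂ).injective).mp (halg x x.2)
  · -- infinite
    intro hfd
    let V : ℕ →o Submodule ℚ K :=
      { toFun := fun k =>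
          { carrier := {x | (x : ℂ) ∈ (seq k).L}
            add_mem' := fun {a b} ha hb => by
              change ((a + b : K) : ℂ) ∈ (seq k).L
              push_cast
              exact add_mem ha hb
            zero_mem' := by
              change ((0 : K) : ℂ) ∈ (seq k).L
              push_cast
              exact zero_mem _
            smul_mem' := fun q {a} ha => by
              change ((q • a : K) : ℂ) ∈ (seq k).L
              rw [Rat.smul_def]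
              push_cast
              exact mul_mem (SubfieldClass.ratCast_mem _ q) ha }
        monotone' := fun i j hij x hx => hmono hij hx }
    obtain ⟨N, hN⟩ := monotone_stabilizes_iff_noetherian.mpr
      (inferInstance : IsNoetherian ℚ K) V
    obtain ⟨M, hM⟩ : ∃ M : ℕ, ℓ < Real.log M := by
      obtain ⟨M, hM⟩ := exists_nat_gt (Real.exp ℓ)
      refine ⟨M, ?_⟩
      have := Real.log_lt_log (Real.exp_pos ℓ) hM
      rwa [Real.log_exp] at this
    have hM0 : (0 : ℝ) < M := by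
      by_contra h
      have h0 : (M : ℝ) = 0 := le_antisymm (not_lt.mp h) (Nat.cast_nonneg _)
      rw [h0, Real.log_zero] at hM
      have := Real.log_nonneg (show (1 : ℝ) ≤ 4 by norm_num)
      linarith
    obtain ⟨k, hk, hfk⟩ := hfx (M : ℂ) (isAlgebraic_natCast M) N
    have hMk : (M : ℂ) ∈ (seq k).L := natCast_mem _ M
    have hstep := hnxt (seq k) (f (Nat.unpair k).1)
    rw [hfk] at hstep
    have e1 : (⟨(M : ℂ), hMk⟩ : (seq k).L) = (M : (seq k).L) := rfl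
    have hne := (hstep hMk (by rw [e1]; exact isIntegral_natCast M)
      (fun φ => by rw [e1, map_natCast, Complex.natCast_re]; exact hM0)
      (fun _ => by rw [e1, lam_natCast]; exact hM)).1
    apply hne
    have hse := hseq k
    rw [hfk] at hse
    rw [← hse]
    have hV : V k = V (k + 1) := (hN k hk).symm.trans (hN (k + 1) (by omega))
    apply le_antisymm (hmono (Nat.le_succ k))
    intro x hx
    have h1 : (⟨x, hleK (k + 1) hx⟩ : K) ∈ V (k + 1) := hx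
    rw [← hV] at h1
    exact h1
  · -- totally real
    intro φ x
    obtain ⟨k, hk⟩ := (hmem x).mp x.2
    exact (seq k).tr (φ.comp (Subfield.inclusion (hleK k))) ⟨x, hk⟩
  · -- every sum of squares is a sum of `p + 1` squares
    rintro x ⟨m, hx⟩
    obtain ⟨k₀, hk₀⟩ := hdown m x hx
    obtain ⟨k, hk, hfk⟩ := hfx x (halg x x.2) k₀
    obtain ⟨hxk, hs⟩ := hk₀ k hk
    have := (seq k).nf
    by_cases h1 : SumSq (seq k).L (p + 1) ⟨x, hxk⟩
    · exact hup _ k x hxk h1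
    · have h2 := gap (seq k).tr (hAle (seq k).L (seq k).nf (seq k).tr) ⟨m, hs⟩ h1
      have hstep := hnxt (seq k) (f (Nat.unpair k).1)
      rw [hfk] at hstep
      have hx0 : (⟨x, hxk⟩ : (seq k).L) ≠ 0 := by
        intro h
        apply h1
        rw [h]
        exact SumSq.zero _
      have h3 := (hstep hxk hs.isIntegral (hs.re_pos (seq k).tr hx0)
        (fun _ => hℓA.trans_le h2)).2
      have hse := hseq k
      rw [hfk] at hse
      have h4 : ∀ s' : Stage p (α : ℂ) ℓ, s' = nxt (seq k) x → ∀ hx' : (x : ℂ) ∈ s'.L,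
          SumSq s'.L 2 (⟨x, hx'⟩ : s'.L) := by
        rintro _ rfl _
        exact h3
      exact hup _ (k + 1) x (hmono (Nat.le_succ k) hxk) ((h4 _ hse _).mono (by omega))
  · -- a long element
    obtain ⟨m, hm⟩ := hα
    refine ⟨⟨α, hleK 0 α.2⟩, ⟨m, hup m 0 α α.2 hm⟩, ?_⟩
    intro g hg hx
    obtain ⟨k₀, hk₀⟩ := hdown p ⟨α, hleK 0 α.2⟩ ⟨g, hg, hx⟩
    obtain ⟨_, h⟩ := hk₀ k₀ le_rfl
    exact (seq k₀).nsum h

end Pool.Agent.Pyth
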