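import Mathlib

/-!
For `n = 1, 2, 3` there is an infinite totally real algebraic extension of the rationals whose ring
of integers has Pythagoras number exactly `n`.

* `n = 1`: all totally real algebraic numbers.
* `n = 3`: the totally real algebraic numbers inside the field of 3-adic numbers.
* `n = 2`: a maximal totally real algebraic field inside the algebraic closure of the 5-adic
  numbers all of whose nonzero elements have absolute value an integral power of 5.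
-/

open Finset
open scoped Classical

namespace Pool.Agent.Pyth.Small

/-- sums of at most `n` squares of integral elements -/
def SumSq (K : Type) [Field K] (n : ℕ) (x : K) : Prop :=
  ∃ f : Fin n → K, (∀ i, IsIntegral ℤ (f i)) ∧ x = ∑ i, f i ^ 2

variable {K : Type} [Field K]

lemma SumSq.succ {n : ℕ} {x : K} (h : SumSq K n x) : SumSq K (n + 1) x := by
  obtain ⟨f, hf, rfl⟩ := h
  refine ⟨Fin.cons 0 f, ?_, ?_⟩
  · intro i
    refine Fin.cases ?_ ?_ i
    · simpa using isIntegral_zero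
    · intro j; simpa using hf j
  · rw [Fin.sum_univ_succ]; simp

lemma SumSq.mono {n m : ℕ} (hnm : n ≤ m) {x : K} (h : SumSq K n x) : SumSq K m x := by
  induction hnm with
  | refl => exact h
  | step _ ih => exact ih.succ

lemma SumSq.cons {n : ℕ} {x y : K} (hy : IsIntegral ℤ y) (h : SumSq K n x) :
    SumSq K (n + 1) (y ^ 2 + x) := by
  obtain ⟨f, hf, rfl⟩ := h
  refine ⟨Fin.cons y f, ?_, ?_⟩
  · intro i
    refine Fin.cases ?_ ?_ i
    · simpa using hy
    · intro j; simpa using hf j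
  · rw [Fin.sum_univ_succ]; simp

lemma sumSq_finset {ι : Type} (s : Finset ι) (f : ι → K) (hf : ∀ i ∈ s, IsIntegral ℤ (f i)) :
    SumSq K s.card (∑ i ∈ s, f i ^ 2) := by
  induction s using Finset.induction_on with
  | empty =>
    have h0 : SumSq K 0 0 := ⟨Fin.elim0, fun i => i.elim0, by simp⟩
    simpa using h0
  | insert a s ha ih =>
    rw [Finset.sum_insert ha, Finset.card_insert_of_notMem ha]
    exact (ih (fun i hi => hf i (Finset.mem_insert_of_mem hi))).cons (hf a (Finset.mem_insert_self a s))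

/-- if a sum of `n+1` squares always contains a subsum with at least two terms that is a square,
then all sums of squares are sums of `n` squares -/
lemma sumSq_reduce (n : ℕ)
    (hred : ∀ f : Fin (n + 1) → K, ∃ S : Finset (Fin (n + 1)), 2 ≤ S.card ∧ ∃ y : K, ∑ i ∈ S, f i ^ 2 = y ^ 2)
    (m : ℕ) (x : K) (h : SumSq K m x) : SumSq K n x := by
  induction m generalizing x with
  | zero => exact h.mono (Nat.zero_le n)
  | succ m ih =>
    obtain ⟨f, hf, rfl⟩ := h
    rw [Fin.sum_univ_succ]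
    have h1 : SumSq K n (∑ i : Fin m, f i.succ ^ 2) := ih _ ⟨fun i => f i.succ, fun i => hf _, rfl⟩
    have h2 := h1.cons (hf 0)
    obtain ⟨g, hg, hgs⟩ := h2
    rw [hgs]
    obtain ⟨S, hS, y, hy⟩ := hred g
    have hyint : IsIntegral ℤ y := by
      have : IsIntegral ℤ (y ^ 2) := by
        rw [← hy]
        exact IsIntegral.sum _ (fun i _ => (hg i).pow 2)
      exact IsIntegral.of_pow (by norm_num) this
    have h3 := (sumSq_finset (Sᶜ) g (fun i _ => hg i)).cons hyint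
    rw [← hy, Finset.sum_add_sum_compl] at h3
    apply h3.mono
    rw [Finset.card_compl, Fintype.card_fin]
    have hle := Finset.card_le_univ S
    rw [Fintype.card_fin] at hle
    omega

/-- infinitely many square roots of primes force infinite degree -/
lemma not_finite_of_sqrt [CharZero K] (Q : Set ℕ) (hQ : Q.Infinite) (hp : ∀ q ∈ Q, q.Prime)
    (hsq : ∀ q ∈ Q, ∃ y : K, y ^ 2 = (q : K)) : ¬ FiniteDimensional ℚ K := by
  intro hfin
  have hfi : Finite (IntermediateField ℚ K) := by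
    rw [← Field.exists_primitive_element_iff_finite_intermediateField]
    exact ⟨inferInstance, Field.exists_primitive_element ℚ K⟩
  choose! y hy using hsq
  have hirr : ∀ n : ℕ, ¬ IsSquare n → ∀ r : ℚ, r ^ 2 ≠ n := by
    intro n hn r hr
    apply hn
    have : IsSquare (n : ℚ) := ⟨r, by rw [← hr]; ring⟩
    exact_mod_cast Rat.isSquare_natCast_iff.1 this
  have hinj : Set.InjOn (fun q => IntermediateField.adjoin ℚ {y q}) Q := by
    intro q hq r hr hqr
    by_contra hne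
    have hmem : y r ∈ IntermediateField.adjoin ℚ {y q} := by
      have : y r ∈ IntermediateField.adjoin ℚ {y r} := IntermediateField.mem_adjoin_simple_self ℚ (y r)
      simp only at hqr
      rwa [← hqr] at this
    -- every element of ℚ(√q) is a + b √q
    have hform : ∀ z ∈ IntermediateField.adjoin ℚ {y q}, ∃ a b : ℚ, z = algebraMap ℚ K a + algebraMap ℚ K b * y q := by
      intro z hz
      have hint : IsIntegral ℚ (y q) := by
        refine ⟨Polynomial.X ^ 2 - Polynomial.C (q : ℚ), Polynomial.monic_X_pow_sub_C _ (by norm_num), ?_⟩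
        simp [hy q hq]
      rw [← IntermediateField.mem_toSubalgebra, IntermediateField.adjoin_simple_toSubalgebra_of_isAlgebraic hint.isAlgebraic] at hz
      induction hz using Algebra.adjoin_induction with
      | mem x hx =>
        rw [Set.mem_singleton_iff] at hx
        exact ⟨0, 1, by simp [hx]⟩
      | algebraMap r => exact ⟨r, 0, by simp⟩
      | add x z _ _ hx hz =>
        obtain ⟨a, b, rfl⟩ := hx
        obtain ⟨a', b', rfl⟩ := hz
        exact ⟨a + a', b + b', by simp; ring⟩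
      | mul x z _ _ hx hz =>
        obtain ⟨a, b, rfl⟩ := hx
        obtain ⟨a', b', rfl⟩ := hz
        refine ⟨a * a' + b * b' * q, a * b' + a' * b, ?_⟩
        have := hy q hq
        simp only [map_add, map_mul, map_natCast]
        linear_combination (algebraMap ℚ K b * algebraMap ℚ K b') * this
    obtain ⟨a, b, hab⟩ := hform _ hmem
    have h1 := hy r hr
    rw [hab] at h1
    have h2 := hy q hq
    have h3 : algebraMap ℚ K (2 * a * b) * y q = algebraMap ℚ K ((r : ℚ) - a ^ 2 - b ^ 2 * q) := by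
      simp only [map_sub, map_mul, map_pow, map_natCast, map_ofNat]
      linear_combination h1 - (algebraMap ℚ K b)^2 * h2
    have hyq : ∀ c e : ℚ, algebraMap ℚ K c * y q = algebraMap ℚ K e → c = 0 := by
      intro c e hce
      by_contra hc
      have hc' : algebraMap ℚ K c ≠ 0 := by simpa using hc
      have : y q = algebraMap ℚ K (e / c) := by
        rw [map_div₀, eq_div_iff hc', mul_comm]; exact hce
      rw [this, ← map_pow] at h2
      have h4 : (e / c) ^ 2 = (q : ℚ) := by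
        apply (algebraMap ℚ K).injective
        rw [h2]; simp
      exact hirr q (hp q hq).prime.not_isSquare _ h4
    have h5 := hyq _ _ h3
    have h6 : (r : ℚ) = a ^ 2 + b ^ 2 * q := by
      rw [h5] at h3
      simp only [map_zero, zero_mul] at h3
      have := (algebraMap ℚ K).injective (h3.symm.trans (map_zero (algebraMap ℚ K)).symm)
      linarith
    have h7 : a = 0 ∨ b = 0 := by
      rcases mul_eq_zero.1 h5 with h | h
      · left
        rcases mul_eq_zero.1 h with h | h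
        · norm_num at h
        · exact h
      · right; exact h
    rcases h7 with h7 | h7
    · subst h7
      -- r * q is a square
      have h8 : (b * q) ^ 2 = ((r * q : ℕ) : ℚ) := by
        push_cast
        rw [h6]; ring
      refine hirr (r * q) ?_ _ h8
      intro hsq
      -- r q squarefree
      have : Squarefree (r * q) := by
        rw [Nat.squarefree_mul ((Nat.coprime_primes (hp r hr) (hp q hq)).2 (fun h => hne h.symm))]
        exact ⟨(hp r hr).squarefree, (hp q hq).squarefree⟩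
      obtain ⟨k, hk⟩ := hsq
      have hu := this k ⟨1, by rw [hk]; ring⟩
      rw [Nat.isUnit_iff] at hu
      subst hu
      have hr2 := (hp r hr).two_le
      have hq2 := (hp q hq).two_le
      nlinarith
    · subst h7
      exact hirr r (hp r hr).prime.not_isSquare a (by rw [h6]; ring)
  exact (hQ.image hinj) (Set.toFinite _)


section TR

variable (Ω : Type) [Field Ω] [CharZero Ω]

/-- the totally real algebraic numbers inside `Ω` -/
def TR : Subfield Ω where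
  carrier := {x | ∃ h : x ∈ algebraicClosure ℚ Ω, ∀ φ : algebraicClosure ℚ Ω →+* ℂ, (φ ⟨x, h⟩).im = 0}
  mul_mem' := by
    rintro a b ⟨ha, ha'⟩ ⟨hb, hb'⟩
    refine ⟨mul_mem ha hb, fun φ => ?_⟩
    have : (⟨a * b, mul_mem ha hb⟩ : algebraicClosure ℚ Ω) = ⟨a, ha⟩ * ⟨b, hb⟩ := rfl
    rw [this, map_mul, Complex.mul_im, ha', hb']
    ring
  one_mem' := by
    refine ⟨one_mem _, fun φ => ?_⟩
    have : (⟨1, one_mem _⟩ : algebraicClosure ℚ Ω) = 1 := rfl
    rw [this, map_one]; simp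
  add_mem' := by
    rintro a b ⟨ha, ha'⟩ ⟨hb, hb'⟩
    refine ⟨add_mem ha hb, fun φ => ?_⟩
    have : (⟨a + b, add_mem ha hb⟩ : algebraicClosure ℚ Ω) = ⟨a, ha⟩ + ⟨b, hb⟩ := rfl
    rw [this, map_add, Complex.add_im, ha', hb']
    ring
  zero_mem' := by
    refine ⟨zero_mem _, fun φ => ?_⟩
    have : (⟨0, zero_mem _⟩ : algebraicClosure ℚ Ω) = 0 := rfl
    rw [this, map_zero]; simp
  neg_mem' := by
    rintro a ⟨ha, ha'⟩
    refine ⟨neg_mem ha, fun φ => ?_⟩
    have : (⟨-a, neg_mem ha⟩ : algebraicClosure ℚ Ω) = -⟨a, ha⟩ := rfl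
    rw [this, map_neg, Complex.neg_im, ha']
    ring
  inv_mem' := by
    rintro a ⟨ha, ha'⟩
    refine ⟨inv_mem ha, fun φ => ?_⟩
    have : (⟨a⁻¹, inv_mem ha⟩ : algebraicClosure ℚ Ω) = (⟨a, ha⟩ : algebraicClosure ℚ Ω)⁻¹ := rfl
    rw [this, map_inv₀, Complex.inv_im, ha']
    simp

variable {Ω}

lemma TR_algebraic {x : Ω} (hx : x ∈ TR Ω) : IsAlgebraic ℚ x := by
  obtain ⟨h, _⟩ := hx
  exact mem_algebraicClosure_iff.1 h

lemma sub_algebraic (M : Subfield Ω) (hM : M ≤ TR Ω) : Algebra.IsAlgebraic ℚ M := by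
  refine ⟨fun x => ?_⟩
  have h := TR_algebraic (hM x.2)
  obtain ⟨p, hp, hpx⟩ := h
  refine ⟨p, hp, ?_⟩
  have hinj : Function.Injective (algebraMap M Ω) := (algebraMap M Ω).injective
  apply hinj
  rw [map_zero, ← hpx, ← Polynomial.aeval_algebraMap_apply]
  rfl

lemma sub_real (M : Subfield Ω) (hM : M ≤ TR Ω) (φ : M →+* ℂ) (x : M) : (φ x).im = 0 := by
  have hle : M ≤ (algebraicClosure ℚ Ω).toSubfield := fun y hy => (hM hy).1
  let ι : M →+* algebraicClosure ℚ Ω := Subfield.inclusion hle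
  let _ : Algebra M (algebraicClosure ℚ Ω) := ι.toAlgebra
  let _ : Algebra M ℂ := φ.toAlgebra
  have _ : Algebra.IsAlgebraic M (algebraicClosure ℚ Ω) := by
    refine ⟨fun z => ?_⟩
    obtain ⟨p, hp, hpx⟩ := mem_algebraicClosure_iff.1 z.2
    refine ⟨p.map (algebraMap ℚ M), ?_, ?_⟩
    · exact (Polynomial.map_ne_zero_iff (algebraMap ℚ M).injective).2 hp
    · let v : algebraicClosure ℚ Ω →+* Ω := (algebraicClosure ℚ Ω).toSubfield.subtype
      have hinj : Function.Injective v := Subtype.val_injective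
      apply hinj
      rw [map_zero, Polynomial.aeval_def, Polynomial.eval₂_map, Polynomial.hom_eval₂, ← hpx, Polynomial.aeval_def]
      congr 1
  let ψ : algebraicClosure ℚ Ω →ₐ[M] ℂ := IsAlgClosed.lift
  have h1 : ψ (ι x) = φ x := ψ.commutes x
  rw [← h1]
  obtain ⟨h, h'⟩ := hM x.2
  exact h' ψ.toRingHom

lemma im_zero_of_sq {w : ℂ} {r : ℝ} (hr : 0 ≤ r) (h : w ^ 2 = r) : w.im = 0 := by
  have h1 := congrArg Complex.re h
  have h2 := congrArg Complex.im h
  simp [pow_two] at h1 h2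
  have h3 : w.re * w.im = 0 := by linarith
  rcases mul_eq_zero.1 h3 with h | h
  · rw [h] at h1
    nlinarith [sq_nonneg w.im]
  · exact h

/-- a square root (in `Ω`) of a sum of squares of totally real numbers is totally real -/
lemma sqrt_mem_TR {ι : Type} (s : Finset ι) (f : ι → Ω) (hf : ∀ i ∈ s, f i ∈ TR Ω) (y : Ω)
    (hy : y ^ 2 = ∑ i ∈ s, f i ^ 2) : y ∈ TR Ω := by
  have hd : ∑ i ∈ s, f i ^ 2 ∈ algebraicClosure ℚ Ω := by
    apply sum_mem
    intro i hi
    exact pow_mem (hf i hi).1 2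
  have hy1 : y ∈ algebraicClosure ℚ Ω := by
    rw [mem_algebraicClosure_iff]
    have : IsAlgebraic ℚ (y ^ 2) := by
      rw [hy]
      exact mem_algebraicClosure_iff.1 hd
    exact (isAlgebraic_iff_isIntegral.2 (IsIntegral.of_pow (by norm_num) (isAlgebraic_iff_isIntegral.1 this)))
  refine ⟨hy1, fun φ => ?_⟩
  have h1 : (⟨y, hy1⟩ : algebraicClosure ℚ Ω) ^ 2 =
      ∑ i ∈ s.attach, (⟨f i, (hf i i.2).1⟩ : algebraicClosure ℚ Ω) ^ 2 := by
    apply Subtype.ext
    simp only [SubmonoidClass.mk_pow, AddSubmonoidClass.coe_finsetSum]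
    rw [hy]
    exact (Finset.sum_attach s (fun i => f i ^ 2)).symm
  have h2 := congrArg φ h1
  rw [map_pow, map_sum] at h2
  have h3 : ∀ i ∈ s.attach, φ ((⟨f i, (hf i i.2).1⟩ : algebraicClosure ℚ Ω) ^ 2) =
      (((φ ⟨f i, (hf i i.2).1⟩).re ^ 2 : ℝ) : ℂ) := by
    intro i _
    rw [map_pow]
    obtain ⟨ha, hb⟩ := hf i i.2
    have h4 : φ ⟨f i, (hf i i.2).1⟩ = (((φ ⟨f i, (hf i i.2).1⟩).re : ℝ) : ℂ) := by
      apply Complex.ext
      · simp
      · simpa using hb φ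
    conv_lhs => rw [h4]
    push_cast
    rfl
  rw [Finset.sum_congr rfl h3, ← Complex.ofReal_sum] at h2
  exact im_zero_of_sq (Finset.sum_nonneg (fun i _ => sq_nonneg _)) h2

end TR


section Three

lemma sq_of_near_one (z : ℚ_[3]) (hz : ‖z - 1‖ < 1) : ∃ y : ℚ_[3], y ^ 2 = z := by
  have hz1 : ‖z‖ = 1 := by
    have h1 : ‖(1 : ℚ_[3])‖ = 1 := norm_one
    have h2 : z = (z - 1) + 1 := by ring
    rw [h2, IsUltrametricDist.norm_add_eq_max_of_norm_ne_norm (by rw [h1]; exact hz.ne), h1]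
    exact max_eq_right hz.le
  let u : ℤ_[3] := ⟨z, hz1.le⟩
  have h2 : ‖(2 : ℤ_[3])‖ = 1 := by
    have : IsUnit ((2 : ℕ) : ℤ_[3]) := by
      rw [PadicInt.isUnit_iff, PadicInt.norm_natCast_eq_one_iff]
      decide
    rw [← PadicInt.isUnit_iff]
    exact_mod_cast this
  have hens := @hensels_lemma 3 _ ℤ_[3] _ _ (Polynomial.X ^ 2 - Polynomial.C u) 1 (by
    simp only [map_sub, map_pow, Polynomial.aeval_X, one_pow, Polynomial.aeval_C, Polynomial.derivative_sub,
      Polynomial.derivative_X_pow, Polynomial.derivative_C, sub_zero, map_mul, Nat.cast_ofNat]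
    simp only [Nat.add_one_sub_one, pow_one, Polynomial.aeval_X, mul_one]
    have e1 : ‖(1 : ℤ_[3]) - (algebraMap ℤ_[3] ℤ_[3]) u‖ < 1 := by
      rw [norm_sub_rev]
      exact hz
    have e2 : ‖(algebraMap ℤ_[3] ℤ_[3]) 2‖ = 1 := h2
    rw [e2]; simpa using e1)
  obtain ⟨y, hy, _⟩ := hens
  simp only [map_sub, map_pow, Polynomial.aeval_X, Polynomial.aeval_C] at hy
  refine ⟨(y : ℚ_[3]), ?_⟩
  have : y ^ 2 = u := by
    have := sub_eq_zero.1 hy
    simpa using this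
  have h5 := congrArg (fun t : ℤ_[3] => (t : ℚ_[3])) this
  simpa using h5

lemma unit_sq (u : ℚ_[3]) (hu : ‖u‖ = 1) : ‖u ^ 2 - 1‖ < 1 := by
  let v : ℤ_[3] := ⟨u, hu.le⟩
  have hv : IsUnit v := by rw [PadicInt.isUnit_iff]; exact hu
  have h1 : PadicInt.toZMod v ≠ 0 := by
    intro h
    have : v ∈ RingHom.ker (PadicInt.toZMod (p := 3)) := h
    rw [PadicInt.ker_toZMod, IsLocalRing.mem_maximalIdeal] at this
    exact this hv
  have h2 : PadicInt.toZMod (v ^ 2 - 1) = 0 := by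
    rw [map_sub, map_pow, map_one]
    revert h1
    generalize PadicInt.toZMod v = a
    revert a
    decide
  have h3 : v ^ 2 - 1 ∈ RingHom.ker (PadicInt.toZMod (p := 3)) := h2
  rw [PadicInt.ker_toZMod, IsLocalRing.mem_maximalIdeal, PadicInt.mem_nonunits] at h3
  exact h3

lemma pair_sq (x y : ℚ_[3]) (h : ‖y‖ < ‖x‖) : ∃ z : ℚ_[3], x ^ 2 + y ^ 2 = z ^ 2 := by
  have hx : x ≠ 0 := by
    rintro rfl
    rw [norm_zero] at h
    exact absurd h (not_lt.2 (norm_nonneg _))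
  obtain ⟨w, hw⟩ := sq_of_near_one (1 + (y / x) ^ 2) (by
    rw [add_sub_cancel_left, norm_pow, norm_div]
    have : ‖y‖ / ‖x‖ < 1 := (div_lt_one ((norm_nonneg _).trans_lt h)).2 h
    exact pow_lt_one₀ (by positivity) this (by norm_num))
  refine ⟨x * w, ?_⟩
  rw [mul_pow, hw]
  field_simp

lemma four_sq (x : Fin 4 → ℚ_[3]) (h0 : ∀ i, ‖x i‖ = ‖x 0‖) : ∃ z : ℚ_[3], ∑ i, x i ^ 2 = z ^ 2 := by
  by_cases hx : x 0 = 0
  · refine ⟨0, ?_⟩
    have : ∀ i, x i = 0 := by
      intro i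
      have := h0 i
      rw [hx, norm_zero, norm_eq_zero] at this
      exact this
    simp [this]
  · have hn : ‖x 0‖ ≠ 0 := by simpa using hx
    have hu : ∀ i, ‖(x i / x 0) ^ 2 - 1‖ < 1 := by
      intro i
      apply unit_sq
      rw [norm_div, h0 i, div_self hn]
    have h3 : ‖(3 : ℚ_[3])‖ < 1 := by
      have := Padic.norm_p_lt_one (p := 3)
      exact_mod_cast this
    obtain ⟨w, hw⟩ := sq_of_near_one (∑ i, (x i / x 0) ^ 2) (by
      have e : (∑ i, (x i / x 0) ^ 2) - 1 = ((((x 0 / x 0) ^ 2 - 1) + ((x 1 / x 0) ^ 2 - 1)) +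
          (((x 2 / x 0) ^ 2 - 1) + ((x 3 / x 0) ^ 2 - 1))) + 3 := by
        simp only [Fin.sum_univ_four]; ring
      rw [e]
      have hlt : ∀ a b : ℚ_[3], ‖a‖ < 1 → ‖b‖ < 1 → ‖a + b‖ < 1 := fun a b ha hb =>
        (IsUltrametricDist.norm_add_le_max _ _).trans_lt (max_lt ha hb)
      exact hlt _ _ (hlt _ _ (hlt _ _ (hu 0) (hu 1)) (hlt _ _ (hu 2) (hu 3))) h3)
    refine ⟨x 0 * w, ?_⟩
    rw [mul_pow, hw, Finset.mul_sum]
    apply Finset.sum_congr rfl
    intro i _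
    field_simp

end Three


/-- the property of `K` and `n` asked for in the question -/
def HasPyth (n : ℕ) : Prop :=
  ∃ (K : Type) (_ : Field K) (_ : CharZero K),
    Algebra.IsAlgebraic ℚ K ∧
    ¬ FiniteDimensional ℚ K ∧
    (∀ φ : K →+* ℂ, ∀ x : K, (φ x).im = 0) ∧
    (∀ x : K,
      (∃ m : ℕ, ∃ g : Fin m → K, (∀ i, IsIntegral ℤ (g i)) ∧ x = ∑ i, g i ^ 2) →
      ∃ f : Fin n → K, (∀ i, IsIntegral ℤ (f i)) ∧ x = ∑ i, f i ^ 2) ∧
    (∃ x : K,
      (∃ m : ℕ, ∃ g : Fin m → K, (∀ i, IsIntegral ℤ (g i)) ∧ x = ∑ i, g i ^ 2) ∧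
      ∀ f : Fin (n - 1) → K, (∀ i, IsIntegral ℤ (f i)) → x ≠ ∑ i, f i ^ 2)

lemma template {Ω : Type} [Field Ω] [CharZero Ω] (M : Subfield Ω) (hM : M ≤ TR Ω) (n : ℕ)
    (hred : ∀ f : Fin (n + 1) → M, ∃ S : Finset (Fin (n + 1)), 2 ≤ S.card ∧ ∃ y : M, ∑ i ∈ S, f i ^ 2 = y ^ 2)
    (Q : Set ℕ) (hQ : Q.Infinite) (hp : ∀ q ∈ Q, q.Prime) (hsq : ∀ q ∈ Q, ∃ y : M, y ^ 2 = (q : M))
    (hα : ∃ x : M, (∃ m : ℕ, SumSq M m x) ∧ ∀ f : Fin (n - 1) → M, x ≠ ∑ i, f i ^ 2) :
    HasPyth n := by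
  refine ⟨M, inferInstance, inferInstance, sub_algebraic M hM, not_finite_of_sqrt Q hQ hp hsq,
    sub_real M hM, ?_, ?_⟩
  · rintro x ⟨m, hx⟩
    exact sumSq_reduce n hred m x hx
  · obtain ⟨x, hx, hx'⟩ := hα
    exact ⟨x, hx, fun f _ => hx' f⟩

lemma sumSq_nat (M : Type) [Field M] (q : ℕ) : SumSq M q (q : M) := by
  refine ⟨fun _ => 1, fun _ => isIntegral_one, ?_⟩
  simp

lemma sqrt_nat_mem_TR {Ω : Type} [Field Ω] [CharZero Ω] (q : ℕ) (y : Ω) (hy : y ^ 2 = (q : Ω)) :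
    y ∈ TR Ω := by
  apply sqrt_mem_TR (Finset.univ : Finset (Fin q)) (fun _ => (1 : Ω)) (fun _ _ => one_mem _)
  simp [hy]

/-- lifting a square root found in `Ω` -/
lemma lift_sqrt {Ω : Type} [Field Ω] [CharZero Ω] {ι : Type} (s : Finset ι) (f : ι → TR Ω) (y : Ω)
    (hy : y ^ 2 = ∑ i ∈ s, (f i : Ω) ^ 2) : ∃ z : TR Ω, ∑ i ∈ s, f i ^ 2 = z ^ 2 := by
  refine ⟨⟨y, sqrt_mem_TR s (fun i => (f i : Ω)) (fun i _ => (f i).2) y hy⟩, ?_⟩
  apply Subtype.ext
  push_cast
  exact hy.symm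

lemma one_case : HasPyth 1 := by
  apply template (TR (AlgebraicClosure ℚ)) le_rfl 1 ?_ {q | q.Prime} Nat.infinite_setOfPred_prime (fun q hq => hq)
  · intro q hq
    obtain ⟨y, hy⟩ := IsAlgClosed.exists_pow_nat_eq ((q : ℕ) : AlgebraicClosure ℚ) (n := 2) (by norm_num)
    refine ⟨⟨y, sqrt_nat_mem_TR q y hy⟩, ?_⟩
    apply Subtype.ext
    push_cast
    exact hy
  · refine ⟨1, ⟨1, by simpa using sumSq_nat (TR (AlgebraicClosure ℚ)) 1⟩, ?_⟩
    intro f
    simp
  · intro f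
    refine ⟨Finset.univ, by simp, ?_⟩
    obtain ⟨y, hy⟩ := IsAlgClosed.exists_pow_nat_eq (∑ i, (f i : AlgebraicClosure ℚ) ^ 2) (n := 2) (by norm_num)
    exact lift_sqrt Finset.univ f y hy

lemma norm_sq_ne (c : ℚ_[3]) : ‖c‖ ^ 2 ≠ ‖(3 : ℚ_[3])‖ := by
  intro h
  have h3 : ‖(3 : ℚ_[3])‖ = (3 : ℝ)⁻¹ := by
    have := Padic.norm_p (p := 3)
    exact_mod_cast this
  have hc : c ≠ 0 := by
    rintro rfl
    rw [norm_zero, h3] at h
    norm_num at h
  rw [h3, Padic.norm_eq_zpow_neg_valuation hc, ← zpow_natCast, ← zpow_mul] at h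
  have h4 : ((3 : ℝ) ^ (-c.valuation * (2 : ℕ))) = (3 : ℝ) ^ (-1 : ℤ) := by
    rw [zpow_neg_one]
    exact_mod_cast h
  have h5 := zpow_right_injective₀ (by norm_num : (0 : ℝ) < 3) (by norm_num) h4
  push_cast at h5
  omega

lemma two_sq_norm (a b : ℚ_[3]) : ∃ c : ℚ_[3], ‖a ^ 2 + b ^ 2‖ = ‖c‖ ^ 2 := by
  rcases lt_trichotomy ‖a‖ ‖b‖ with h | h | h
  · obtain ⟨z, hz⟩ := pair_sq b a h
    exact ⟨z, by rw [add_comm, hz, norm_pow]⟩
  · by_cases hb : b = 0
    · subst hb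
      rw [norm_zero, norm_eq_zero] at h
      subst h
      exact ⟨0, by simp⟩
    · have hn : ‖b‖ ≠ 0 := by simpa using hb
      have hu := unit_sq (a / b) (by rw [norm_div, h, div_self hn])
      have h2 : ‖(2 : ℚ_[3])‖ = 1 := by
        have := (Padic.norm_natCast_eq_one_iff (p := 3) (n := 2)).2 (by decide)
        exact_mod_cast this
      have e : a ^ 2 + b ^ 2 = b ^ 2 * (((a / b) ^ 2 - 1) + 2) := by
        field_simp
        ring
      refine ⟨b, ?_⟩
      rw [e, norm_mul, norm_pow, IsUltrametricDist.norm_add_eq_max_of_norm_ne_norm (by rw [h2]; exact hu.ne), h2,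
        max_eq_right hu.le, mul_one]
  · obtain ⟨z, hz⟩ := pair_sq a b h
    exact ⟨z, by rw [hz, norm_pow]⟩

lemma three_case : HasPyth 3 := by
  apply template (TR ℚ_[3]) le_rfl 3 ?_ {q | q.Prime ∧ q ≡ 1 [MOD 3]}
    (Nat.infinite_setOfPred_prime_modEq_one (by norm_num)) (fun q hq => hq.1)
  · rintro q ⟨_, hq⟩
    obtain ⟨y, hy⟩ := sq_of_near_one (q : ℚ_[3]) (by
      have h1 : ((q : ℚ_[3]) - 1) = (((q : ℤ) - 1 : ℤ) : ℚ_[3]) := by push_cast; ring
      rw [h1, Padic.norm_intCast_lt_one_iff]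
      exact (Nat.modEq_iff_dvd.1 hq.symm))
    refine ⟨⟨y, sqrt_nat_mem_TR q y hy⟩, ?_⟩
    apply Subtype.ext
    push_cast
    exact hy
  · refine ⟨3, ⟨3, by simpa using sumSq_nat (TR ℚ_[3]) 3⟩, ?_⟩
    intro f h
    rw [Fin.sum_univ_two] at h
    have h2 : ((3 : TR ℚ_[3]) : ℚ_[3]) = ((f 0 ^ 2 + f 1 ^ 2 : TR ℚ_[3]) : ℚ_[3]) := congrArg _ h
    push_cast at h2
    obtain ⟨c, hc⟩ := two_sq_norm (f 0 : ℚ_[3]) (f 1 : ℚ_[3])
    rw [← h2] at hc
    exact norm_sq_ne c hc.symm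
  · intro f
    by_cases h : ∀ i, ‖(f i : ℚ_[3])‖ = ‖(f 0 : ℚ_[3])‖
    · obtain ⟨z, hz⟩ := four_sq (fun i => (f i : ℚ_[3])) h
      exact ⟨Finset.univ, by simp, lift_sqrt Finset.univ f z hz.symm⟩
    · push Not at h
      obtain ⟨i, hi⟩ := h
      have hi0 : i ≠ 0 := by rintro rfl; exact hi rfl
      refine ⟨{i, 0}, by rw [Finset.card_pair hi0], ?_⟩
      rcases lt_or_gt_of_ne hi with h | h
      · obtain ⟨z, hz⟩ := pair_sq (f 0 : ℚ_[3]) (f i : ℚ_[3]) h
        apply lift_sqrt {i, 0} f z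
        rw [Finset.sum_pair hi0, ← hz]; ring
      · obtain ⟨z, hz⟩ := pair_sq (f i : ℚ_[3]) (f 0 : ℚ_[3]) h
        apply lift_sqrt {i, 0} f z
        rw [Finset.sum_pair hi0, ← hz]


section Two

local instance fact5 : Fact (Nat.Prime 5) := ⟨by norm_num⟩

/-- norms in `5^ℤ` -/
def Unr (x : PadicAlgCl 5) : Prop := ∃ k : ℤ, ‖x‖ = (5 : ℝ) ^ k

lemma unr_mul {x y : PadicAlgCl 5} (hx : Unr x) (hy : Unr y) : Unr (x * y) := by
  obtain ⟨k, hk⟩ := hx
  obtain ⟨l, hl⟩ := hy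
  exact ⟨k + l, by rw [norm_mul, hk, hl, zpow_add₀ (by norm_num)]⟩

/-- admissible subfields -/
def Adm : Set (Subfield (PadicAlgCl 5)) :=
  {M | M ≤ TR (PadicAlgCl 5) ∧ ∀ x ∈ M, x ≠ 0 → Unr x}

lemma norm_five : ‖(5 : PadicAlgCl 5)‖ = (5 : ℝ) ^ (-1 : ℤ) := by
  have h := PadicAlgCl.norm_extends 5 (5 : ℚ_[5])
  rw [map_ofNat] at h
  rw [h]
  have := Padic.norm_p (p := 5)
  rw [zpow_neg_one]
  exact_mod_cast this

lemma norm_two : ‖(2 : PadicAlgCl 5)‖ = 1 := by
  have h := PadicAlgCl.norm_extends 5 (2 : ℚ_[5])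
  rw [map_ofNat] at h
  rw [h]
  have := (Padic.norm_natCast_eq_one_iff (p := 5) (n := 2)).2 (by decide)
  exact_mod_cast this

lemma bot_adm : (Rat.castHom (PadicAlgCl 5)).fieldRange ∈ Adm := by
  refine ⟨?_, ?_⟩
  · rintro x ⟨q, rfl⟩
    exact SubfieldClass.ratCast_mem _ q
  rintro x ⟨q, rfl⟩ hx0
  simp only [Rat.coe_castHom] at hx0 ⊢
  have hq : (q : ℚ_[5]) ≠ 0 := by
    intro h
    apply hx0
    have : q = 0 := by exact_mod_cast h
    simp [this]
  refine ⟨-(q : ℚ_[5]).valuation, ?_⟩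
  have h := PadicAlgCl.norm_extends 5 (q : ℚ_[5])
  rw [map_ratCast] at h
  rw [h, Padic.norm_eq_zpow_neg_valuation hq]
  norm_num

lemma exists_maximal_adm : ∃ M, Maximal (fun M => M ∈ Adm) M := by
  have key : ∀ c ⊆ Adm, IsChain (· ≤ ·) c → ∀ y ∈ c, ∃ ub ∈ Adm, ∀ z ∈ c, z ≤ ub := by
    intro c hc hchain y hy
    have hdir : DirectedOn (· ≤ ·) c := hchain.directedOn
    refine ⟨sSup c, ⟨?_, ?_⟩, fun z hz => le_sSup hz⟩
    · exact sSup_le (fun z hz => (hc hz).1)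
    · intro x hx hx0
      rw [Subfield.mem_sSup_of_directedOn ⟨y, hy⟩ hdir] at hx
      obtain ⟨z, hz, hxz⟩ := hx
      exact (hc hz).2 x hxz hx0
  obtain ⟨M, _, hM⟩ := zorn_le_nonempty₀ Adm key _ bot_adm
  exact ⟨M, hM⟩

lemma unr_norm_even {x : PadicAlgCl 5} {k : ℤ} (h : ‖x ^ 2‖ = (5 : ℝ) ^ (2 * k)) : ‖x‖ = (5 : ℝ) ^ k := by
  rw [norm_pow, mul_comm, zpow_mul] at h
  have h' : ‖x‖ ^ 2 = ((5 : ℝ) ^ k) ^ 2 := by exact_mod_cast h
  exact (pow_left_inj₀ (norm_nonneg _) (by positivity) (by norm_num)).1 h'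

lemma unr_of_pair {s t : PadicAlgCl 5} {k m : ℤ} (hs : ‖s‖ ≤ (5 : ℝ) ^ k) (ht : ‖t‖ ≤ (5 : ℝ) ^ k)
    (hst : ‖s * t‖ = (5 : ℝ) ^ m) (hsum : ‖s + t‖ = (5 : ℝ) ^ k) : Unr s := by
  have h1 := IsUltrametricDist.norm_add_le_max s t
  rw [hsum] at h1
  rcases le_max_iff.1 h1 with h | h
  · exact ⟨k, le_antisymm hs h⟩
  · have h2 : ‖t‖ = (5 : ℝ) ^ k := le_antisymm ht h
    refine ⟨m - k, ?_⟩
    rw [norm_mul, h2] at hst
    rw [zpow_sub₀ (by norm_num), ← hst]
    field_simp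

/-- the quadratic extension `M(η)` -/
def quadExt (M : Subfield (PadicAlgCl 5)) (η : PadicAlgCl 5) (h2 : η ^ 2 ∈ M) (hη : η ∉ M) :
    Subfield (PadicAlgCl 5) where
  carrier := {x | ∃ a ∈ M, ∃ b ∈ M, x = a + b * η}
  mul_mem' := by
    rintro x y ⟨a, ha, b, hb, rfl⟩ ⟨c, hc, d, hd, rfl⟩
    refine ⟨a * c + b * d * η ^ 2, add_mem (mul_mem ha hc) (mul_mem (mul_mem hb hd) h2),
      a * d + b * c, add_mem (mul_mem ha hd) (mul_mem hb hc), ?_⟩
    ring
  one_mem' := ⟨1, one_mem _, 0, zero_mem _, by simp⟩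
  add_mem' := by
    rintro x y ⟨a, ha, b, hb, rfl⟩ ⟨c, hc, d, hd, rfl⟩
    exact ⟨a + c, add_mem ha hc, b + d, add_mem hb hd, by ring⟩
  zero_mem' := ⟨0, zero_mem _, 0, zero_mem _, by simp⟩
  neg_mem' := by
    rintro x ⟨a, ha, b, hb, rfl⟩
    exact ⟨-a, neg_mem ha, -b, neg_mem hb, by ring⟩
  inv_mem' := by
    rintro x ⟨a, ha, b, hb, rfl⟩
    by_cases hx : a + b * η = 0
    · rw [hx]
      exact ⟨0, zero_mem _, 0, zero_mem _, by simp⟩
    · have ht : a - b * η ≠ 0 := by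
        intro ht
        by_cases hb0 : b = 0
        · subst hb0
          apply hx
          simpa using ht
        · apply hη
          have : η = a / b := by
            rw [eq_div_iff hb0]
            linear_combination -ht
          rw [this]
          exact div_mem ha hb
      refine ⟨a / (a ^ 2 - b ^ 2 * η ^ 2), div_mem ha (sub_mem (pow_mem ha 2) (mul_mem (pow_mem hb 2) h2)),
        -b / (a ^ 2 - b ^ 2 * η ^ 2), div_mem (neg_mem hb) (sub_mem (pow_mem ha 2) (mul_mem (pow_mem hb 2) h2)), ?_⟩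
      have e : a ^ 2 - b ^ 2 * η ^ 2 = (a + b * η) * (a - b * η) := by ring
      rw [e]
      field_simp
      ring

lemma max_sqrt (M : Subfield (PadicAlgCl 5)) (hM : Maximal (fun M => M ∈ Adm) M)
    {ι : Type} (s : Finset ι) (f : ι → PadicAlgCl 5) (hf : ∀ i ∈ s, f i ∈ M)
    (k : ℤ) (hk : ‖∑ i ∈ s, f i ^ 2‖ = (5 : ℝ) ^ (2 * k)) :
    ∃ y ∈ M, y ^ 2 = ∑ i ∈ s, f i ^ 2 := by
  obtain ⟨η, hη2⟩ := IsAlgClosed.exists_pow_nat_eq (∑ i ∈ s, f i ^ 2) (n := 2) (by norm_num)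
  have hMTR : M ≤ TR (PadicAlgCl 5) := hM.1.1
  have hMU : ∀ x ∈ M, x ≠ 0 → Unr x := hM.1.2
  have hηT : η ∈ TR (PadicAlgCl 5) := sqrt_mem_TR s f (fun i hi => hMTR (hf i hi)) η hη2
  have hδM : η ^ 2 ∈ M := by
    rw [hη2]; exact sum_mem (fun i hi => pow_mem (hf i hi) 2)
  by_cases hη : η ∈ M
  · exact ⟨η, hη, hη2⟩
  exfalso
  have hηk : ‖η‖ = (5 : ℝ) ^ k := unr_norm_even (by rw [hη2]; exact hk)
  have hηU : Unr η := ⟨k, hηk⟩
  have hadm : quadExt M η hδM hη ∈ Adm := by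
    refine ⟨?_, ?_⟩
    · rintro x ⟨a, ha, b, hb, rfl⟩
      exact add_mem (hMTR ha) (mul_mem (hMTR hb) hηT)
    · rintro x ⟨a, ha, b, hb, rfl⟩ hx
      by_cases hb0 : b = 0
      · subst hb0
        rw [zero_mul, add_zero] at hx ⊢
        exact hMU a ha hx
      by_cases ha0 : a = 0
      · subst ha0
        rw [zero_add]
        exact unr_mul (hMU b hb hb0) hηU
      have ht : a - b * η ≠ 0 := by
        intro ht
        apply hη
        have : η = a / b := by
          rw [eq_div_iff hb0]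
          linear_combination -ht
        rw [this]
        exact div_mem ha hb
      obtain ⟨i, hi⟩ := hMU a ha ha0
      obtain ⟨j, hj⟩ := unr_mul (hMU b hb hb0) hηU
      by_cases hne : ‖a‖ = ‖b * η‖
      · have e : (a + b * η) * (a - b * η) = a ^ 2 - b ^ 2 * η ^ 2 := by ring
        have hmem : (a + b * η) * (a - b * η) ∈ M := by
          rw [e]; exact sub_mem (pow_mem ha 2) (mul_mem (pow_mem hb 2) hδM)
        obtain ⟨m, hm⟩ := hMU _ hmem (mul_ne_zero hx ht)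
        apply unr_of_pair (k := i) (t := a - b * η) _ _ hm
        · have : (a + b * η) + (a - b * η) = 2 * a := by ring
          rw [this, norm_mul, norm_two, one_mul, hi]
        · refine (IsUltrametricDist.norm_add_le_max _ _).trans ?_
          rw [← hne, max_self, hi]
        · rw [sub_eq_add_neg]
          refine (IsUltrametricDist.norm_add_le_max _ _).trans ?_
          rw [norm_neg, ← hne, max_self, hi]
      · unfold Unr
        rw [IsUltrametricDist.norm_add_eq_max_of_norm_ne_norm hne, hi, hj]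
        rcases max_choice ((5 : ℝ) ^ i) (5 ^ j) with h | h
        · exact ⟨i, h⟩
        · exact ⟨j, h⟩
  have hle : M ≤ quadExt M η hδM hη := fun x hx => ⟨x, hx, 0, zero_mem _, by simp⟩
  have := hM.2 hadm hle
  exact hη (this ⟨0, zero_mem _, 1, one_mem _, by simp⟩)

lemma max_sqrt' (M : Subfield (PadicAlgCl 5)) (hM : Maximal (fun M => M ∈ Adm) M)
    {ι : Type} (s : Finset ι) (f : ι → M)
    (k : ℤ) (hk : ‖∑ i ∈ s, (f i : PadicAlgCl 5) ^ 2‖ = (5 : ℝ) ^ (2 * k)) :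
    ∃ y : M, ∑ i ∈ s, f i ^ 2 = y ^ 2 := by
  obtain ⟨y, hyM, hy⟩ := max_sqrt M hM s (fun i => (f i : PadicAlgCl 5)) (fun i _ => (f i).2) k hk
  refine ⟨⟨y, hyM⟩, ?_⟩
  apply Subtype.ext
  push_cast
  exact hy.symm

lemma two_red (M : Subfield (PadicAlgCl 5)) (hM : Maximal (fun M => M ∈ Adm) M) (f : Fin 3 → M) :
    ∃ S : Finset (Fin 3), 2 ≤ S.card ∧ ∃ y : M, ∑ i ∈ S, f i ^ 2 = y ^ 2 := by
  by_contra hcon
  push Not at hcon
  have hlt : ∀ i j : Fin 3, i ≠ j → ∀ k : ℤ, ‖(f i : PadicAlgCl 5)‖ ≤ (5 : ℝ) ^ k →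
      ‖(f j : PadicAlgCl 5)‖ ≤ (5 : ℝ) ^ k →
      ‖(f i : PadicAlgCl 5) ^ 2 + (f j : PadicAlgCl 5) ^ 2‖ < (5 : ℝ) ^ (2 * k) := by
    intro i j hij k hi hj
    have hpow : (5 : ℝ) ^ (2 * k) = ((5 : ℝ) ^ k) ^ 2 := by
      rw [mul_comm, zpow_mul]; norm_cast
    refine lt_of_le_of_ne ?_ ?_
    · refine (IsUltrametricDist.norm_add_le_max _ _).trans ?_
      rw [norm_pow, norm_pow, hpow]
      exact max_le (pow_le_pow_left₀ (norm_nonneg _) hi 2) (pow_le_pow_left₀ (norm_nonneg _) hj 2)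
    · intro heq
      obtain ⟨y, hy⟩ := max_sqrt' M hM {i, j} f k (by rw [Finset.sum_pair hij]; exact heq)
      exact hcon {i, j} (by rw [Finset.card_pair hij]) y hy
  obtain ⟨i, hi⟩ := Finite.exists_max (fun i => ‖(f i : PadicAlgCl 5)‖)
  by_cases h0 : f i = 0
  · have hall : ∀ j, f j = 0 := by
      intro j
      have h := hi j
      simp only [h0, ZeroMemClass.coe_zero, norm_zero] at h
      have : (f j : PadicAlgCl 5) = 0 := norm_le_zero_iff.1 h
      exact_mod_cast this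
    exact hcon Finset.univ (by simp) 0 (by simp [hall])
  · have h0' : (f i : PadicAlgCl 5) ≠ 0 := by
      intro h; apply h0; exact_mod_cast h
    obtain ⟨k, hk⟩ := hM.1.2 (f i) (f i).2 h0'
    have hle : ∀ j, ‖(f j : PadicAlgCl 5)‖ ≤ (5 : ℝ) ^ k := fun j => (hi j).trans hk.le
    have hthree : ∀ i : Fin 3, ∃ j l : Fin 3, i ≠ j ∧ i ≠ l ∧ j ≠ l := by decide
    obtain ⟨j, l, hij, hil, hjl⟩ := hthree i
    have h1 := hlt i j hij k (hle i) (hle j)
    have h2 := hlt i l hil k (hle i) (hle l)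
    have h3 := hlt j l hjl k (hle j) (hle l)
    have e : (2 : PadicAlgCl 5) * (f i : PadicAlgCl 5) ^ 2 =
        ((f i : PadicAlgCl 5) ^ 2 + (f j : PadicAlgCl 5) ^ 2) + (((f i : PadicAlgCl 5) ^ 2 + (f l : PadicAlgCl 5) ^ 2) +
          -((f j : PadicAlgCl 5) ^ 2 + (f l : PadicAlgCl 5) ^ 2)) := by ring
    have h4 : ‖(2 : PadicAlgCl 5) * (f i : PadicAlgCl 5) ^ 2‖ < (5 : ℝ) ^ (2 * k) := by
      rw [e]
      refine (IsUltrametricDist.norm_add_le_max _ _).trans_lt (max_lt h1 ?_)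
      refine (IsUltrametricDist.norm_add_le_max _ _).trans_lt (max_lt h2 ?_)
      rw [norm_neg]; exact h3
    have hpow : (5 : ℝ) ^ (2 * k) = ((5 : ℝ) ^ k) ^ 2 := by
      rw [mul_comm, zpow_mul]; norm_cast
    rw [norm_mul, norm_two, one_mul, norm_pow, hk, hpow] at h4
    exact lt_irrefl _ h4

lemma two_case : HasPyth 2 := by
  obtain ⟨M, hM⟩ := exists_maximal_adm
  apply template M hM.1.1 2 (two_red M hM) {q | q.Prime ∧ q ≠ 5} ?_ (fun q hq => hq.1)
  · rintro q ⟨hq, hq5⟩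
    have hn : ‖(q : PadicAlgCl 5)‖ = 1 := by
      have h := PadicAlgCl.norm_extends 5 (q : ℚ_[5])
      rw [map_natCast] at h
      rw [h, Padic.norm_natCast_eq_one_iff]
      exact (Nat.coprime_primes (by norm_num) hq).2 (Ne.symm hq5)
    obtain ⟨y, hy⟩ := max_sqrt' M hM (Finset.univ : Finset (Fin q)) (fun _ => 1) 0 (by
      simp [hn])
    exact ⟨y, by rw [← hy]; simp⟩
  · refine ⟨5, ⟨5, by simpa using sumSq_nat M 5⟩, ?_⟩
    intro f h
    simp only [Nat.add_one_sub_one, Finset.univ_unique, Finset.sum_singleton] at h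
    have h2 : (5 : PadicAlgCl 5) = ((f default : M) : PadicAlgCl 5) ^ 2 := by
      have h2 : ((5 : M) : PadicAlgCl 5) = ((f default ^ 2 : M) : PadicAlgCl 5) := congrArg _ h
      exact h2
    have h0 : (f default : PadicAlgCl 5) ≠ 0 := by
      intro h0
      rw [h0] at h2
      norm_num at h2
    obtain ⟨k, hk⟩ := hM.1.2 _ (f default).2 h0
    have h3 := congrArg norm h2
    rw [norm_five, norm_pow, hk, ← zpow_natCast, ← zpow_mul] at h3
    have h5 := zpow_right_injective₀ (by norm_num : (0 : ℝ) < 5) (by norm_num) h3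
    push_cast at h5
    omega
  · have : {q : ℕ | q.Prime ∧ q ≠ 5} = {q | q.Prime} \ {5} := by
      ext q; simp
    rw [this]
    exact Nat.infinite_setOfPred_prime.diff (Set.finite_singleton 5)

end Two

/-- For `n = 1, 2, 3` there is an infinite-degree totally real algebraic extension of `ℚ` whose ring
of integers has Pythagoras number exactly `n`. -/
theorem small_cases : ∀ n : ℕ, 1 ≤ n → n ≤ 3 →
      ∃ (K : Type) (_ : Field K) (_ : CharZero K),
        Algebra.IsAlgebraic ℚ K ∧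
        ¬ FiniteDimensional ℚ K ∧
        (∀ φ : K →+* ℂ, ∀ x : K, (φ x).im = 0) ∧
        (∀ x : K,
          (∃ m : ℕ, ∃ g : Fin m → K, (∀ i, IsIntegral ℤ (g i)) ∧ x = ∑ i, g i ^ 2) →
          ∃ f : Fin n → K, (∀ i, IsIntegral ℤ (f i)) ∧ x = ∑ i, f i ^ 2) ∧
        (∃ x : K,
          (∃ m : ℕ, ∃ g : Fin m → K, (∀ i, IsIntegral ℤ (g i)) ∧ x = ∑ i, g i ^ 2) ∧
          ∀ f : Fin (n - 1) → K, (∀ i, IsIntegral ℤ (f i)) → x ≠ ∑ i, f i ^ 2) := by
  intro n h1 h3
  interval_cases n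
  · exact one_case
  · exact two_case
  · exact three_case

end Pool.Agent.Pyth.Small

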